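import Mathlib
import Pool.Agent.H489R3.Starfish

set_option autoImplicit false

/-!
# Coefficient-free Laurent phenomenon
-/

namespace Pool.Agent.R266.TS

open Finset Pool.Agent.H489R3

variable {V : Type*} [Fintype V] [DecidableEq V] {K : Type*} [Field K]

/-- A coefficient-free seed with algebraically independent cluster and skew-symmetric matrix. -/
structure GoodF (s : Seed V K) : Prop where
  alg : AlgebraicIndependent ℤ s.x
  skew : ∀ i j, s.B i j = -s.B j i

theorem alg_mutate {s : Seed V K} (ha : AlgebraicIndependent ℤ s.x)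
    (hk : ∀ i j, s.B i j = -s.B j i) (k : V) : AlgebraicIndependent ℤ (s.mutate k).x := by
  have hkk : s.B k k = 0 := skew_diag hk k
  have huniv : (Set.univ : Set V) = insert k {k}ᶜ := by ext i; simp [em]
  have h1 := (AlgebraicIndepOn.univ (x := s.x) (R := ℤ)).2 ha
  rw [huniv, AlgebraicIndepOn.insert_iff (by simp)] at h1
  obtain ⟨h2, h3⟩ := h1
  have hag : ∀ i ∈ ({k}ᶜ : Set V), (s.mutate k).x i = s.x i := fun i hi => mutate_x_ne hi s
  rw [← AlgebraicIndepOn.univ, huniv, AlgebraicIndepOn.insert_iff (by simp)]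
  constructor
  · have : (fun i : ({k}ᶜ : Set V) => (s.mutate k).x i) = fun i : ({k}ᶜ : Set V) => s.x i := by
      funext i; exact hag i i.2
    rw [AlgebraicIndepOn, this]
    exact h2
  · have himg : (s.mutate k).x '' {k}ᶜ = s.x '' {k}ᶜ := Set.image_congr hag
    rw [himg]
    intro halg
    apply h3
    set D := Algebra.adjoin ℤ (s.x '' {k}ᶜ) with hD
    have hprod : ∀ e : V → ℕ, e k = 0 → ∏ i, s.x i ^ e i ∈ D := by
      intro e he
      refine Subalgebra.prod_mem _ fun i _ => ?_
      by_cases hi : i = k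
      · subst hi; rw [he, pow_zero]; exact Subalgebra.one_mem _
      · exact Subalgebra.pow_mem _ (Algebra.subset_adjoin
          (Set.mem_image_of_mem s.x (show i ∈ ({k}ᶜ : Set V) from hi))) _
    have hP : exch s.B s.x k ∈ D :=
      Subalgebra.add_mem _ (hprod _ (by simp [hkk])) (hprod _ (by simp [hkk]))
    have h5 : s.x k = exch s.B s.x k * ((s.mutate k).x k)⁻¹ := by
      rw [mutate_x_self]
      have h2 := exch_ne_zero (B := s.B) ha k
      have h3 := x_ne_zero ha k
      field_simp
    rw [h5]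
    have h6 : IsAlgebraic D (exch s.B s.x k) :=
      isAlgebraic_algebraMap (⟨exch s.B s.x k, hP⟩ : D)
    exact h6.mul halg.inv

theorem GoodF.mutate {s : Seed V K} (hs : GoodF s) (k : V) : GoodF (s.mutate k) :=
  ⟨alg_mutate hs.alg hs.skew k, mutMat_skew k hs.skew⟩

theorem reach_goodF {s₀ s : Seed V K} (h0 : GoodF s₀) (h : Reach Set.univ s₀ s) : GoodF s := by
  induction h with
  | refl => exact h0
  | step _ _ ih => exact ih.mutate _

theorem reach_trans {N : Set V} {a b c : Seed V K} (h1 : Reach N a b) (h2 : Reach N b c) :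
    Reach N a c := by
  induction h2 with
  | refl => exact h1
  | step _ hk ih => exact ih.step hk

theorem reach_symm {a b : Seed V K} (ha : GoodF a) (h : Reach Set.univ a b) :
    Reach Set.univ b a := by
  induction h with
  | refl => exact Reach.refl
  | @step s k hr hk ih =>
    have hs := reach_goodF ha hr
    have h1 : Reach Set.univ (s.mutate k) ((s.mutate k).mutate k) := Reach.refl.step hk
    rw [mutate_mutate hs.alg hs.skew] at h1
    exact reach_trans h1 ih

/-- The exchange matrix with principal coefficients. -/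
def prB (B : V → V → ℤ) : V ⊕ V → V ⊕ V → ℤ
  | Sum.inl i, Sum.inl j => B i j
  | Sum.inr i, Sum.inl j => if i = j then 1 else 0
  | Sum.inl i, Sum.inr j => if i = j then -1 else 0
  | Sum.inr _, Sum.inr _ => 0

theorem prB_skew {B : V → V → ℤ} (h : ∀ i j, B i j = -B j i) :
    ∀ i j, prB B i j = -prB B j i := by
  rintro (i | i) (j | j)
  · exact h i j
  · simp only [prB, eq_comm (a := j)]; split <;> simp
  · simp only [prB, eq_comm (a := j)]; split <;> simp
  · simp [prB]

theorem prB_good {K₀ : Type*} [Field K₀] {B : V → V → ℤ} (h : ∀ i j, B i j = -B j i)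
    {X : V ⊕ V → K₀} (hX : AlgebraicIndependent ℤ X) :
    Good (Set.range Sum.inl) (⟨X, prB B⟩ : Seed (V ⊕ V) K₀) := by
  refine ⟨hX, prB_skew h, fun v hv hB => ?_⟩
  funext j
  rcases j with j | j
  · have h1 := hB (Sum.inr j)
    rw [Fintype.sum_sum_type] at h1
    have h2 : ∀ i : V, (⟨X, prB B⟩ : Seed (V ⊕ V) K₀).B (Sum.inr j) (Sum.inl i) * v (Sum.inl i) =
        if j = i then v (Sum.inl i) else 0 := by
      intro i
      simp only [prB]
      split <;> simp
    have h3 : ∀ i : V, (⟨X, prB B⟩ : Seed (V ⊕ V) K₀).B (Sum.inr j) (Sum.inr i) * v (Sum.inr i) =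
        0 := by
      intro i
      simp [prB]
    simp only [h2, h3, sum_ite_eq, mem_univ, if_true, sum_const_zero, add_zero] at h1
    exact h1
  · exact hv _ (by simp)

theorem partner {K₀ : Type*} [Field K₀] {X : V ⊕ V → K₀} (hX : AlgebraicIndependent ℤ X)
    {s₀ : Seed V K} (h0 : GoodF s₀) {s : Seed V K} (h : Reach Set.univ s₀ s) :
    ∃ S : Seed (V ⊕ V) K₀, Reach (Set.range Sum.inl) ⟨X, prB s₀.B⟩ S ∧
      (∀ i j, S.B (Sum.inl i) (Sum.inl j) = s.B i j) ∧
      ∀ i, Sp X (Sum.elim s₀.x fun _ => 1) (S.x i) (Sum.elim s.x (fun _ => 1) i) := by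
  induction h with
  | refl => exact ⟨_, Reach.refl, fun i j => rfl, fun i => Sp.var i⟩
  | @step s k hr hk ih =>
    obtain ⟨S, h1, h2, h3⟩ := ih
    have hs := reach_goodF h0 hr
    refine ⟨S.mutate (Sum.inl k), h1.step ⟨k, rfl⟩, ?_, ?_⟩
    · intro i j
      rw [mutate_B, mutate_B]
      simp only [mutMat, Sum.inl.injEq, h2]
    · rintro (i | i)
      · simp only [Sum.elim_inl]
        by_cases hik : i = k
        · subst hik
          rw [mutate_x_self, mutate_x_self, div_eq_mul_inv, div_eq_mul_inv]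
          refine Sp.mul ?_ ((h3 (Sum.inl i)).inv hX ?_)
          · have h4 := Sp.exch h3 S.B (Sum.inl i)
            have h5 : exch S.B (Sum.elim s.x fun _ => (1 : K)) (Sum.inl i) = exch s.B s.x i := by
              unfold exch
              rw [Fintype.prod_sum_type, Fintype.prod_sum_type]
              simp [h2]
            rw [h5] at h4
            exact h4
          · exact x_ne_zero hs.alg i
        · have h4 : (Sum.inl i : V ⊕ V) ≠ Sum.inl k := fun h => hik (Sum.inl.inj h)
          rw [mutate_x_ne h4, mutate_x_ne hik]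
          exact h3 (Sum.inl i)
      · rw [mutate_x_ne (by simp)]
        exact h3 (Sum.inr i)

theorem laurent_free.{u} {V : Type u} [Fintype V] [DecidableEq V] {K : Type*} [Field K]
    {s₀ s : Seed V K} (h0 : GoodF s₀) (h : Reach Set.univ s₀ s) (i : V) :
    s.x i ∈ LRing s₀.x := by
  obtain ⟨K₀, _, X, hX⟩ := exists_algebraicIndependent (V ⊕ V)
  obtain ⟨S, h1, -, h3⟩ := partner hX h0 h
  have h4 := laurent_frozen (prB_good h0.skew hX) h1 (Sum.inl i)
  obtain ⟨w, hw, hsp⟩ := Sp.NRing hX (fun j => Sp.var (x := X)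
    (x' := Sum.elim s₀.x fun _ => (1 : K)) j) (by
      rintro (j | j)
      · exact x_ne_zero h0.alg j
      · simp) h4
  have h5 : s.x i = w := (h3 (Sum.inl i)).unique hX hsp
  rw [h5]
  refine (Subring.closure_le.2 ?_ : NRing (Set.range Sum.inl)
    (Sum.elim s₀.x fun _ => (1 : K)) ≤ LRing s₀.x) hw
  rintro z (⟨j | j, rfl⟩ | ⟨j, ⟨j', rfl⟩, rfl⟩)
  · exact x_mem_LRing _ j
  · exact Subring.one_mem _
  · exact inv_mem_LRing _ j'

theorem LRing_le {s₀ s : Seed V K} (h0 : GoodF s₀) (h : Reach Set.univ s₀ s) {f : MvPolynomial V ℤ} :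
    MvPolynomial.aeval s.x f ∈ LRing s₀.x := by
  induction f using MvPolynomial.induction_on with
  | C a => simp
  | add p q hp hq => rw [map_add]; exact Subring.add_mem _ hp hq
  | mul_X p i hp =>
    rw [map_mul, MvPolynomial.aeval_X]
    exact Subring.mul_mem _ hp (laurent_free h0 h i)

end Pool.Agent.R266.TS
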