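import Mathlib
import Pool.Agent.H489R3.Defs
import Pool.Agent.H489R3.Val

set_option autoImplicit false

/-!
# Bipartite quivers with commuting halves, T-systems, conserved quantities: the definitions
-/

namespace Pool.Agent.R266.TS

open Finset Pool.Agent.H489R3

open scoped Classical in
/-- The adjacency matrix of the simple graph formed by the arrows that leave the vertices of
colour `c`. -/
noncomputable def half {V : Type*} (arr : V → V → Prop) (eps : V → ℤ) (c : ℤ) : Matrix V V ℤ :=
  Matrix.of fun u v => if (arr u v ∧ eps u = c) ∨ (arr v u ∧ eps v = c) then 1 else 0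

/-- A finite bipartite quiver without loops, directed 2-cycles and multiple arrows, with a
bipartition `eps` with values `0`, `1`, such that the adjacency matrices of the graph `Γ` of the
arrows leaving the vertices of colour `0` and of the graph `Δ` of the arrows leaving the vertices
of colour `1` commute. -/
structure BiQuiver (V : Type*) [Fintype V] where
  /-- the arrows -/
  arr : V → V → Prop
  /-- the bipartition -/
  eps : V → ℤ
  /-- the colours are `0` and `1` -/
  eps01 : ∀ v, eps v = 0 ∨ eps v = 1
  /-- every arrow joins vertices of different colour -/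
  bip : ∀ u v, arr u v → eps u ≠ eps v
  /-- there are no directed 2-cycles -/
  no2 : ∀ u v, arr u v → ¬ arr v u
  /-- `Γ` and `Δ` commute -/
  comm : half arr eps 0 * half arr eps 1 = half arr eps 1 * half arr eps 0

/-- The field `ℚ(x) = Frac ℤ[x]` of rational functions in the indeterminates `x v`. -/
abbrev RF (V : Type*) := FractionRing (MvPolynomial V ℤ)

/-- The indeterminates. -/
noncomputable def var {V : Type*} (v : V) : RF V :=
  algebraMap (MvPolynomial V ℤ) (RF V) (MvPolynomial.X v)

/-- The value at `y` of a polynomial with integer coefficients. -/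
noncomputable def ev {V K : Type*} [Field K] (y : V → K) : MvPolynomial V ℤ →+* K :=
  MvPolynomial.eval₂Hom (Int.castRingHom K) y

variable {V : Type*} [Fintype V]

open scoped Classical in
/-- `T` satisfies the T-system of `Q` (the values `T v t` with `t + eps v` odd play no role):
`T v (eps v) = x v`, and
`T v (t + 1) * T v (t - 1) = ∏ (u → v) T u t + ∏ (v → w) T w t`. -/
def IsT (Q : BiQuiver V) (T : V → ℤ → RF V) : Prop :=
  (∀ v, T v (Q.eps v) = var v) ∧
    ∀ v t, Odd (t + Q.eps v) → T v (t + 1) * T v (t - 1) =
      ∏ u ∈ univ.filter (fun u => Q.arr u v), T u t + ∏ w ∈ univ.filter (fun w => Q.arr v w), T w t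

/-- `F` is a conserved quantity: for all even `s`, if `F = f(x) / g(x)`, then also
`F = f(y) / g(y)` with `y v = T v (s + eps v)`. -/
def Conserved (Q : BiQuiver V) (T : V → ℤ → RF V) (F : RF V) : Prop :=
  ∀ s : ℤ, Even s → ∀ f g : MvPolynomial V ℤ, g ≠ 0 →
    F * ev var g = ev var f →
    ev (fun v => T v (s + Q.eps v)) g ≠ 0 ∧
    F * ev (fun v => T v (s + Q.eps v)) g = ev (fun v => T v (s + Q.eps v)) f

/-- Recurrence data at `v`: `i ≥ 1` (even, since otherwise the terms of the recurrence are not
defined), `N ≥ 0`, and conserved quantities `J 0 = 1, J 1, …, J (N + 1) = 1` with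
`J 0 T_v(t + i(N+1)) - J 1 T_v(t + iN) + … ± J (N+1) T_v(t) = 0` for all `t` with `t + eps v`
even. -/
structure IsData (Q : BiQuiver V) (T : V → ℤ → RF V) (v : V) (i : ℤ) (N : ℕ) (J : ℕ → RF V) :
    Prop where
  pos : 1 ≤ i
  even : Even i
  zero : J 0 = 1
  last : J (N + 1) = 1
  conserved : ∀ k ≤ N + 1, Conserved Q T (J k)
  recur : ∀ t, Even (t + Q.eps v) →
    ∑ k ∈ range (N + 2), (-1) ^ k * J k * T v (t + i * (N + 1 - k)) = 0

open scoped Classical in
/-- The exchange matrix: the number of arrows `u → v` minus the number of arrows `v → u`. -/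
noncomputable def exB (Q : BiQuiver V) (u v : V) : ℤ :=
  (if Q.arr u v then 1 else 0) - (if Q.arr v u then 1 else 0)

/-- The initial seed. -/
noncomputable def seed0 (Q : BiQuiver V) : Seed V (RF V) := ⟨var, exB Q⟩

end Pool.Agent.R266.TS
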