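import Mathlib
import Pool.Agent.R266.TS.A
import Pool.Agent.R266.TS.Defs

set_option autoImplicit false
set_option linter.unusedSectionVars false

/-!
# The bipartite belt
-/

namespace Pool.Agent.R266.TS

open Finset Pool.Agent.H489R3

section General

variable {V : Type*} [Fintype V] [DecidableEq V] {K : Type*} [Field K]

/-- The matrix obtained by mutating at the vertices of `S`. -/
def matS (B : V → V → ℤ) (S : Finset V) (i j : V) : ℤ :=
  if i ∈ S ∨ j ∈ S then -B i j
  else B i j + ∑ k ∈ S, (max (B i k) 0 * max (B k j) 0 - max (-B i k) 0 * max (-B k j) 0)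

/-- The cluster obtained by mutating at the vertices of `S`. -/
noncomputable def varS (B : V → V → ℤ) (y : V → K) (S : Finset V) (v : V) : K :=
  if v ∈ S then exch B y v / y v else y v

theorem mutate_set {B : V → V → ℤ} {col : V → ℤ} (hbip : ∀ i j, col i = col j → B i j = 0)
    (y : V → K) (c : ℤ) (S : Finset V) (hS : ∀ v ∈ S, col v = c) :
    Reach Set.univ (⟨y, B⟩ : Seed V K) ⟨varS B y S, matS B S⟩ := by
  induction S using Finset.induction_on with
  | empty =>
    have h1 : (⟨varS B y ∅, matS B ∅⟩ : Seed V K) = ⟨y, B⟩ := by
      refine Seed.ext ?_ ?_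
      · funext v; simp [varS]
      · funext i j; simp [matS]
    rw [h1]
    exact Reach.refl
  | @insert k S hk ih =>
    have ih := ih fun v hv => hS v (mem_insert_of_mem hv)
    have hck : col k = c := hS k (mem_insert_self _ _)
    have h0 : ∀ l ∈ insert k S, ∀ l' ∈ insert k S, B l l' = 0 := fun l hl l' hl' =>
      hbip _ _ (by rw [hS l hl, hS l' hl'])
    have hcolk : ∀ i, matS B S i k = B i k := by
      intro i
      unfold matS
      by_cases hi : i ∈ S
      · rw [if_pos (Or.inl hi), h0 i (mem_insert_of_mem hi) k (mem_insert_self _ _)]; simp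
      · rw [if_neg (by tauto), sum_eq_zero, add_zero]
        intro l hl
        rw [h0 l (mem_insert_of_mem hl) k (mem_insert_self _ _)]
        simp
    have hrowk : ∀ j, matS B S k j = B k j := by
      intro j
      unfold matS
      by_cases hj : j ∈ S
      · rw [if_pos (Or.inr hj), h0 k (mem_insert_self _ _) j (mem_insert_of_mem hj)]; simp
      · rw [if_neg (by tauto), sum_eq_zero, add_zero]
        intro l hl
        rw [h0 k (mem_insert_self _ _) l (mem_insert_of_mem hl)]
        simp
    have h1 : (⟨varS B y (insert k S), matS B (insert k S)⟩ : Seed V K) =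
        (⟨varS B y S, matS B S⟩ : Seed V K).mutate k := by
      refine Seed.ext ?_ ?_
      · funext v
        by_cases hv : v = k
        · subst hv
          rw [mutate_x_self]
          have h2 : exch (matS B S) (varS B y S) v = exch B y v := by
            refine exch_congr hcolk fun i hi => ?_
            unfold varS
            rw [if_neg]
            intro hiS
            apply hi
            rw [hcolk]
            exact h0 i (mem_insert_of_mem hiS) v (mem_insert_self _ _)
          change varS B y (insert v S) v = exch (matS B S) (varS B y S) v / varS B y S v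
          rw [h2]
          unfold varS
          rw [if_pos (mem_insert_self _ _), if_neg hk]
        · rw [mutate_x_ne hv]
          change varS B y (insert k S) v = varS B y S v
          unfold varS
          simp [mem_insert, hv]
      · funext i j
        rw [mutate_B]
        change matS B (insert k S) i j = mutMat k (matS B S) i j
        by_cases hi : i = k
        · subst hi
          rw [mutMat_left, hrowk]
          unfold matS
          rw [if_pos (Or.inl (mem_insert_self _ _))]
        by_cases hj : j = k
        · subst hj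
          rw [mutMat_right, hcolk]
          unfold matS
          rw [if_pos (Or.inr (mem_insert_self _ _))]
        rw [mutMat_ne hi hj, hcolk, hrowk]
        unfold matS
        by_cases hij : i ∈ S ∨ j ∈ S
        · have h5 : i ∈ insert k S ∨ j ∈ insert k S := by
            rcases hij with h | h
            · exact Or.inl (mem_insert_of_mem h)
            · exact Or.inr (mem_insert_of_mem h)
          rw [if_pos h5, if_pos hij]
          have h6 : B i k = 0 ∨ B k j = 0 := by
            rcases hij with h | h
            · exact Or.inl (h0 _ (mem_insert_of_mem h) _ (mem_insert_self _ _))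
            · exact Or.inr (h0 _ (mem_insert_self _ _) _ (mem_insert_of_mem h))
          rcases h6 with h | h <;> rw [h] <;> simp
        · have h5 : ¬ (i ∈ insert k S ∨ j ∈ insert k S) := by
            simp only [mem_insert]; tauto
          rw [if_neg h5, if_neg hij, sum_insert hk]
          ring
    rw [h1]
    exact ih.step (Set.mem_univ _)

/-- Mutating at all vertices of colour `c`. -/
theorem mutate_colour {B : V → V → ℤ} {col : V → ℤ} (hbip : ∀ i j, col i = col j → B i j = 0)
    (h01 : ∀ v, col v = 0 ∨ col v = 1) (c : ℤ) (hc : c = 0 ∨ c = 1)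
    (hcomm : ∀ i j, col i ≠ c → col j ≠ c → ∑ k ∈ univ.filter (fun k => col k = c),
      (max (B i k) 0 * max (B k j) 0 - max (-B i k) 0 * max (-B k j) 0) = 0) (y : V → K) :
    Reach Set.univ (⟨y, B⟩ : Seed V K)
      ⟨fun v => if col v = c then exch B y v / y v else y v, fun i j => -B i j⟩ := by
  have h1 := mutate_set hbip y c (univ.filter (fun k => col k = c)) (by simp)
  have h2 : (⟨varS B y (univ.filter (fun k => col k = c)),
      matS B (univ.filter (fun k => col k = c))⟩ : Seed V K) =
      ⟨fun v => if col v = c then exch B y v / y v else y v, fun i j => -B i j⟩ := by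
    refine Seed.ext ?_ ?_
    · funext v
      simp [varS]
    · funext i j
      change matS B (univ.filter (fun k => col k = c)) i j = -B i j
      unfold matS
      by_cases h : i ∈ univ.filter (fun k => col k = c) ∨ j ∈ univ.filter (fun k => col k = c)
      · rw [if_pos h]
      · rw [if_neg h]
        simp only [mem_filter, mem_univ, true_and, not_or] at h
        rw [hcomm i j h.1 h.2]
        have h3 : col i = col j := by
          have := h01 i; have := h01 j; omega
        rw [hbip i j h3]
        simp
  rw [h2] at h1
  exact h1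

theorem exch_negB (B : V → V → ℤ) (y : V → K) (v : V) :
    exch (fun i j => -B i j) y v = exch B y v :=
  exch_neg (fun i => (neg_neg _).symm) fun _ _ => rfl

end General

section Belt

variable {V : Type*} [Fintype V] [DecidableEq V] (Q : BiQuiver V)

theorem exB_skew (i j : V) : exB Q i j = -exB Q j i := by
  unfold exB; ring

theorem exB_bip (i j : V) (h : Q.eps i = Q.eps j) : exB Q i j = 0 := by
  unfold exB
  rw [if_neg fun h' => Q.bip _ _ h' h, if_neg fun h' => Q.bip _ _ h' h.symm]
  simp

open scoped Classical in
theorem max_exB (i j : V) : max (exB Q i j) 0 = if Q.arr i j then 1 else 0 := by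
  unfold exB
  by_cases h1 : Q.arr i j
  · rw [if_pos h1, if_neg (Q.no2 _ _ h1)]; simp
  · rw [if_neg h1]
    by_cases h2 : Q.arr j i
    · rw [if_pos h2]; simp
    · rw [if_neg h2]; simp

open scoped Classical in
theorem max_neg_exB (i j : V) : max (-exB Q i j) 0 = if Q.arr j i then 1 else 0 := by
  rw [← exB_skew Q j i]; exact max_exB Q j i

open scoped Classical in
theorem comm_aux (c : ℤ) (hc : c = 0 ∨ c = 1) (i j : V) (hi : Q.eps i ≠ c) (hj : Q.eps j ≠ c) :
    ∑ k ∈ univ.filter (fun k => Q.eps k = c),
      (max (exB Q i k) 0 * max (exB Q k j) 0 - max (-exB Q i k) 0 * max (-exB Q k j) 0) = 0 := by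
  have h01 := Q.eps01
  set c' : ℤ := 1 - c with hc'
  have hi' : Q.eps i = c' := by have := h01 i; omega
  have hj' : Q.eps j = c' := by have := h01 j; omega
  have hcomm : (half Q.arr Q.eps c' * half Q.arr Q.eps c) i j =
      (half Q.arr Q.eps c * half Q.arr Q.eps c') i j := by
    rcases hc with rfl | rfl
    · have : c' = 1 := by omega
      rw [this, Q.comm]
    · have : c' = 0 := by omega
      rw [this, Q.comm]
  rw [Matrix.mul_apply, Matrix.mul_apply] at hcomm
  have h1 : ∀ k, half Q.arr Q.eps c' i k * half Q.arr Q.eps c k j =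
      if Q.eps k = c then max (exB Q i k) 0 * max (exB Q k j) 0 else 0 := by
    intro k
    rw [max_exB, max_exB]
    simp only [half, Matrix.of_apply]
    by_cases hk : Q.eps k = c
    · have hk' : Q.eps k ≠ c' := by omega
      have hjc : Q.eps j ≠ c := hj
      simp only [hk, if_true, hi', and_true, hjc, and_false, or_false]
      have h5 : c ≠ c' := by omega
      simp [h5]
    · have hk' : Q.eps k = c' := by have := h01 k; omega
      have h5 : ¬ Q.arr i k := fun h => Q.bip _ _ h (by rw [hi', hk'])
      have h6 : ¬ Q.arr k i := fun h => Q.bip _ _ h (by rw [hi', hk'])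
      simp [hk, h5, h6]
  have h2 : ∀ k, half Q.arr Q.eps c i k * half Q.arr Q.eps c' k j =
      if Q.eps k = c then max (-exB Q i k) 0 * max (-exB Q k j) 0 else 0 := by
    intro k
    rw [max_neg_exB, max_neg_exB]
    simp only [half, Matrix.of_apply]
    by_cases hk : Q.eps k = c
    · have hk' : Q.eps k ≠ c' := by omega
      simp only [hk, if_true, hj', and_true, hi, and_false, false_or]
      have h5 : c ≠ c' := by omega
      simp [h5]
    · have hk' : Q.eps k = c' := by have := h01 k; omega
      have h5 : ¬ Q.arr i k := fun h => Q.bip _ _ h (by rw [hi', hk'])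
      have h6 : ¬ Q.arr k i := fun h => Q.bip _ _ h (by rw [hi', hk'])
      simp [hk, h5, h6]
  simp only [h1, h2] at hcomm
  rw [← sum_filter, ← sum_filter] at hcomm
  rw [sum_sub_distrib, hcomm, sub_self]

open scoped Classical in
theorem exch_exB {K : Type*} [CommSemiring K] (y : V → K) (v : V) :
    exch (exB Q) y v = ∏ u ∈ univ.filter (fun u => Q.arr u v), y u +
      ∏ w ∈ univ.filter (fun w => Q.arr v w), y w := by
  unfold exch
  rw [prod_filter, prod_filter]
  congr 1
  · refine prod_congr rfl fun u _ => ?_
    have h1 := max_exB Q u v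
    by_cases h : Q.arr u v
    · rw [if_pos h] at h1 ⊢
      have : (exB Q u v).toNat = 1 := by omega
      rw [this, pow_one]
    · rw [if_neg h] at h1 ⊢
      have : (exB Q u v).toNat = 0 := by omega
      rw [this, pow_zero]
  · refine prod_congr rfl fun u _ => ?_
    have h1 := max_neg_exB Q u v
    by_cases h : Q.arr v u
    · rw [if_pos h] at h1 ⊢
      have : (-exB Q u v).toNat = 1 := by omega
      rw [this, pow_one]
    · rw [if_neg h] at h1 ⊢
      have : (-exB Q u v).toNat = 0 := by omega
      rw [this, pow_zero]

/-- The cluster with the vertices of colour `0` at time `α` and those of colour `1` at time `β`. -/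
def cl (T : V → ℤ → RF V) (α β : ℤ) (v : V) : RF V :=
  if Q.eps v = 0 then T v α else T v β

variable {Q}

/-- the two signs of the exchange matrix -/
def IsPM (B : V → V → ℤ) : Prop := B = exB Q ∨ B = fun i j => -exB Q i j

theorem step_colour {B : V → V → ℤ} (hB : IsPM (Q := Q) B) (c : ℤ) (hc : c = 0 ∨ c = 1)
    (y : V → RF V) :
    Reach Set.univ (⟨y, B⟩ : Seed V (RF V))
      ⟨fun v => if Q.eps v = c then exch (exB Q) y v / y v else y v, fun i j => -B i j⟩ := by
  rcases hB with rfl | rfl
  · exact mutate_colour (exB_bip Q) Q.eps01 c hc (comm_aux Q c hc) y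
  · have h1 := mutate_colour (K := RF V) (B := fun i j => -exB Q i j)
      (fun i j h => by simp [exB_bip Q i j h]) Q.eps01 c hc
      (fun i j hi hj => by
        have h2 := comm_aux Q c hc i j hi hj
        simp only [neg_neg]
        have h3 : ∑ k ∈ univ.filter (fun k => Q.eps k = c),
            (max (-exB Q i k) 0 * max (-exB Q k j) 0 - max (exB Q i k) 0 * max (exB Q k j) 0) =
            -∑ k ∈ univ.filter (fun k => Q.eps k = c),
            (max (exB Q i k) 0 * max (exB Q k j) 0 - max (-exB Q i k) 0 * max (-exB Q k j) 0) := by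
          rw [← sum_neg_distrib]
          exact sum_congr rfl fun k _ => by ring
        rw [h3, h2, neg_zero]) y
    simp only [exch_negB] at h1
    exact h1

theorem goodF_seed0 : GoodF (seed0 Q) := by
  refine ⟨?_, exB_skew Q⟩
  exact algebraicIndependent_of_injective (algebraMap (MvPolynomial V ℤ) (RF V))
    (IsFractionRing.injective _ _)

theorem step0 {T : V → ℤ → RF V} (hT : IsT Q T) {B : V → V → ℤ} (hB : IsPM (Q := Q) B)
    {α β : ℤ} (hα : Even α) (hαβ : α = β + 1 ∨ α = β - 1)
    (h : Reach Set.univ (seed0 Q) ⟨cl Q T α β, B⟩) :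
    Reach Set.univ (seed0 Q) ⟨cl Q T (2 * β - α) β, fun i j => -B i j⟩ := by
  classical
  have h1 := step_colour hB 0 (Or.inl rfl) (cl Q T α β)
  have hgood := reach_goodF goodF_seed0 h
  have h2 : (fun v => if Q.eps v = 0 then exch (exB Q) (cl Q T α β) v / cl Q T α β v
      else cl Q T α β v) = cl Q T (2 * β - α) β := by
    funext v
    by_cases hv : Q.eps v = 0
    · rw [if_pos hv]
      have h3 : cl Q T α β v = T v α := by simp [cl, hv]
      have h4 : cl Q T (2 * β - α) β v = T v (2 * β - α) := by simp [cl, hv]
      have hne : T v α ≠ 0 := by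
        rw [← h3]; exact x_ne_zero hgood.alg v
      rw [h3, h4, exch_exB, div_eq_iff hne]
      have h5 := hT.2 v β (by
        rw [hv, add_zero]
        rcases hαβ with h | h
        · rw [h] at hα; exact (Int.odd_iff.2 (by have := Int.even_iff.1 hα; omega))
        · rw [h] at hα; exact (Int.odd_iff.2 (by have := Int.even_iff.1 hα; omega)))
      have h6 : T v (2 * β - α) * T v α = T v (β + 1) * T v (β - 1) := by
        rcases hαβ with h | h
        · rw [h, mul_comm]; congr 2; ring
        · rw [h]; congr 2; ring
      rw [h6, h5]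
      congr 1
      · refine prod_congr rfl fun u hu => ?_
        rw [mem_filter] at hu
        have hu' := Q.bip _ _ hu.2
        rw [cl, if_neg (by rw [hv] at hu'; exact hu')]
      · refine prod_congr rfl fun u hu => ?_
        rw [mem_filter] at hu
        have hu' := Q.bip _ _ hu.2
        rw [cl, if_neg (by rw [hv] at hu'; exact hu'.symm)]
    · rw [if_neg hv]; simp [cl, hv]
  rw [h2] at h1
  exact reach_trans h h1

theorem step1 {T : V → ℤ → RF V} (hT : IsT Q T) {B : V → V → ℤ} (hB : IsPM (Q := Q) B)
    {α β : ℤ} (hβ : Odd β) (hαβ : α = β + 1 ∨ α = β - 1)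
    (h : Reach Set.univ (seed0 Q) ⟨cl Q T α β, B⟩) :
    Reach Set.univ (seed0 Q) ⟨cl Q T α (2 * α - β), fun i j => -B i j⟩ := by
  classical
  have h1 := step_colour hB 1 (Or.inr rfl) (cl Q T α β)
  have hgood := reach_goodF goodF_seed0 h
  have h2 : (fun v => if Q.eps v = 1 then exch (exB Q) (cl Q T α β) v / cl Q T α β v
      else cl Q T α β v) = cl Q T α (2 * α - β) := by
    funext v
    by_cases hv : Q.eps v = 1
    · rw [if_pos hv]
      have hv0 : Q.eps v ≠ 0 := by omega
      have h3 : cl Q T α β v = T v β := by simp [cl, hv0]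
      have h4 : cl Q T α (2 * α - β) v = T v (2 * α - β) := by simp [cl, hv0]
      have hne : T v β ≠ 0 := by
        rw [← h3]; exact x_ne_zero hgood.alg v
      rw [h3, h4, exch_exB, div_eq_iff hne]
      have h5 := hT.2 v α (by
        rw [hv]
        rcases hαβ with h | h
        · rw [h]; exact (Int.odd_iff.2 (by have := Int.odd_iff.1 hβ; omega))
        · rw [h]; exact (Int.odd_iff.2 (by have := Int.odd_iff.1 hβ; omega)))
      have h6 : T v (2 * α - β) * T v β = T v (α + 1) * T v (α - 1) := by
        rcases hαβ with h | h
        · rw [h]; congr 2 <;> ring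
        · rw [h, mul_comm]; congr 2 <;> ring
      rw [h6, h5]
      congr 1
      · refine prod_congr rfl fun u hu => ?_
        rw [mem_filter] at hu
        have hu' := Q.bip _ _ hu.2
        have := Q.eps01 u
        rw [cl, if_pos (by omega)]
      · refine prod_congr rfl fun u hu => ?_
        rw [mem_filter] at hu
        have hu' := Q.bip _ _ hu.2
        have := Q.eps01 u
        rw [cl, if_pos (by omega)]
    · rw [if_neg hv]
      have := Q.eps01 v
      have hv0 : Q.eps v = 0 := by omega
      simp [cl, hv0]
  rw [h2] at h1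
  exact reach_trans h h1

theorem cl_std (T : V → ℤ → RF V) (n : ℤ) :
    cl Q T (2 * n) (2 * n + 1) = fun v => T v (2 * n + Q.eps v) := by
  funext v
  unfold cl
  rcases Q.eps01 v with h | h
  · rw [if_pos h, h, add_zero]
  · rw [if_neg (by omega), h]

/-- Every cluster of the T-system at an even time is the cluster of a reachable seed. -/
theorem belt {T : V → ℤ → RF V} (hT : IsT Q T) (n : ℤ) :
    Reach Set.univ (seed0 Q) ⟨fun v => T v (2 * n + Q.eps v), exB Q⟩ := by
  rw [← cl_std]
  induction n using Int.induction_on with
  | zero =>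
    have h1 : (⟨cl Q T (2 * 0) (2 * 0 + 1), exB Q⟩ : Seed V (RF V)) = seed0 Q := by
      refine Seed.ext ?_ rfl
      rw [cl_std]
      funext v
      have h2 := hT.1 v
      change T v (2 * 0 + Q.eps v) = var v
      rw [mul_zero, zero_add, h2]
    rw [h1]
    exact Reach.refl
  | succ n ih =>
    have h1 := step0 hT (Or.inl rfl) (even_two_mul _) (Or.inr (by ring)) ih
    have h2 := step1 hT (Or.inr rfl) (odd_two_mul_add_one _) (Or.inl (by ring)) h1
    simp only [neg_neg] at h2
    have e1 : 2 * (2 * (n : ℤ) + 1) - 2 * n = 2 * (n + 1) := by ring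
    have e2 : 2 * (2 * ((n : ℤ) + 1)) - (2 * n + 1) = 2 * (n + 1) + 1 := by ring
    rw [e1, e2] at h2
    exact h2
  | pred n ih =>
    have h1 := step1 hT (Or.inl rfl) (odd_two_mul_add_one _) (Or.inr (by ring)) ih
    have h2 := step0 hT (Or.inr rfl) (even_two_mul _) (Or.inl (by ring)) h1
    simp only [neg_neg] at h2
    have e1 : 2 * (2 * (-(n : ℤ))) - (2 * (-(n : ℤ)) + 1) = 2 * (-(n : ℤ) - 1) + 1 := by ring
    have e2 : 2 * (2 * (-(n : ℤ) - 1) + 1) - 2 * (-(n : ℤ)) = 2 * (-(n : ℤ) - 1) := by ring
    rw [e1, e2] at h2
    exact h2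

end Belt

end Pool.Agent.R266.TS
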