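import Mathlib

set_option autoImplicit false
set_option linter.unusedSectionVars false

/-!
# Linear recurrences of bi-infinite sequences: the Fatou lemma
-/

namespace Pool.Agent.R266.TS

open Finset Polynomial

section Shift

variable {K : Type*} [Field K]

/-- The shift by `i`. -/
def sh (i : ℤ) : Module.End K (ℤ → K) where
  toFun a n := a (n + i)
  map_add' _ _ := rfl
  map_smul' _ _ := rfl

theorem sh_apply (i : ℤ) (a : ℤ → K) (n : ℤ) : sh i a n = a (n + i) := rfl

theorem sh_pow_apply (i : ℤ) (a : ℤ → K) (k : ℕ) (n : ℤ) :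
    ((sh i : Module.End K (ℤ → K)) ^ k) a n = a (n + i * k) := by
  induction k generalizing n with
  | zero => simp
  | succ k ih =>
    rw [pow_succ', Module.End.mul_apply, sh_apply, ih]
    congr 1
    push_cast
    ring

theorem sh_injective (i : ℤ) : Function.Injective (sh i : Module.End K (ℤ → K)) := by
  intro a b h
  funext n
  have := congrFun h (n - i)
  rw [sh_apply, sh_apply] at this
  simpa using this

theorem aeval_sh (i : ℤ) (p : K[X]) (a : ℤ → K) (n : ℤ) :
    (aeval (sh i : Module.End K (ℤ → K)) p) a n =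
      ∑ j ∈ range (p.natDegree + 1), p.coeff j * a (n + i * j) := by
  rw [aeval_eq_sum_range, LinearMap.sum_apply, Finset.sum_apply]
  refine sum_congr rfl fun j _ => ?_
  rw [LinearMap.smul_apply, Pi.smul_apply, sh_pow_apply, smul_eq_mul]

theorem aeval_sh' (i : ℤ) (p : K[X]) (d : ℕ) (hd : p.natDegree ≤ d) (a : ℤ → K) (n : ℤ) :
    (aeval (sh i : Module.End K (ℤ → K)) p) a n =
      ∑ j ∈ range (d + 1), p.coeff j * a (n + i * j) := by
  rw [aeval_sh]
  refine sum_subset (range_mono (by omega)) fun j _ hj => ?_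
  rw [mem_range, not_lt] at hj
  rw [coeff_eq_zero_of_natDegree_lt (by omega), zero_mul]

/-- The annihilator. -/
def ann (i : ℤ) (a : ℤ → K) : Ideal K[X] where
  carrier := {p | (aeval (sh i : Module.End K (ℤ → K)) p) a = 0}
  add_mem' {p q} hp hq := by
    simp only [Set.mem_ofPred_eq] at *
    rw [map_add, LinearMap.add_apply, hp, hq, add_zero]
  zero_mem' := by simp
  smul_mem' r p hp := by
    simp only [Set.mem_ofPred_eq] at *
    rw [smul_eq_mul, map_mul, Module.End.mul_apply, hp, map_zero]

theorem mem_ann {i : ℤ} {a : ℤ → K} {p : K[X]} :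
    p ∈ ann i a ↔ (aeval (sh i : Module.End K (ℤ → K)) p) a = 0 := Iff.rfl

/-- `m` is the minimal polynomial of the sequence `a` with respect to the shift by `i`. -/
structure IsMin (i : ℤ) (a : ℤ → K) (m : K[X]) : Prop where
  monic : m.Monic
  kills : m ∈ ann i a
  dvd : ∀ p ∈ ann i a, m ∣ p

theorem exists_isMin {i : ℤ} {a : ℤ → K} {p : K[X]} (hp : p ∈ ann i a) (hp0 : p ≠ 0) :
    ∃ m, IsMin i a m := by
  set g := Submodule.IsPrincipal.generator (ann i a) with hg
  have h1 : ∀ q, q ∈ ann i a ↔ g ∣ q := fun q => by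
    rw [hg]
    exact Submodule.IsPrincipal.mem_iff_generator_dvd (ann i a)
  have hg0 : g ≠ 0 := by
    intro h
    have := (h1 p).1 hp
    rw [h, zero_dvd_iff] at this
    exact hp0 this
  have hl : g.leadingCoeff ≠ 0 := leadingCoeff_ne_zero.2 hg0
  refine ⟨g * C g.leadingCoeff⁻¹, monic_mul_leadingCoeff_inv hg0, ?_, ?_⟩
  · rw [h1]; exact Dvd.intro _ rfl
  · intro q hq
    obtain ⟨c, rfl⟩ := (h1 q).1 hq
    refine ⟨C g.leadingCoeff * c, ?_⟩
    have : (C g.leadingCoeff⁻¹ : K[X]) * C g.leadingCoeff = 1 := by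
      rw [← C_mul, inv_mul_cancel₀ hl, C_1]
    linear_combination (-g * c) * this

theorem IsMin.coeff_zero_ne {i : ℤ} {a : ℤ → K} {m : K[X]} (h : IsMin i a m) : m.coeff 0 ≠ 0 := by
  intro h0
  obtain ⟨m', hm'⟩ := X_dvd_iff.2 h0
  have h1 : m' ∈ ann i a := by
    rw [mem_ann]
    apply sh_injective i
    have := h.kills
    rw [mem_ann, hm', map_mul, Module.End.mul_apply, aeval_X] at this
    rw [this, map_zero]
  have h2 := h.dvd _ h1
  have hm0 : m ≠ 0 := h.monic.ne_zero
  have hm'0 : m' ≠ 0 := by
    rintro rfl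
    rw [mul_zero] at hm'
    exact hm0 hm'
  have h3 := natDegree_le_of_dvd h2 hm'0
  rw [hm', natDegree_X_mul hm'0] at h3
  omega

end Shift

section Fatou

variable {R : Type*} [CommRing R] [IsDomain R] {K : Type*} [Field K] [Algebra R K]

/-- The sequences satisfying the recurrence with coefficients `e`. -/
def rel (i : ℤ) (d : ℕ) (e : ℕ → K) : Submodule R (ℤ → K) where
  carrier := {c | ∀ n, ∑ j ∈ range (d + 1), e j * c (n + i * j) = 0}
  add_mem' {c c'} h h' n := by
    have h1 := h n
    have h2 := h' n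
    simp only [Pi.add_apply, mul_add, sum_add_distrib]
    rw [h1, h2, add_zero]
  zero_mem' n := by simp
  smul_mem' r c h n := by
    have h1 := h n
    have h2 : ∀ j : ℕ, e j * (r • c) (n + i * j) = r • (e j * c (n + i * j)) := by
      intro j
      rw [Pi.smul_apply, mul_smul_comm]
    simp only [h2]
    rw [← smul_sum, h1, smul_zero]

theorem rel_zero {i : ℕ} (hi : 0 < i) {d : ℕ} {e : ℕ → K} (h0 : e 0 ≠ 0) (hd : e d ≠ 0)
    {c : ℤ → K} (hc : c ∈ (rel (R := R) (i : ℤ) d e)) (hw : ∀ n : ℕ, n < i * d → c n = 0) :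
    c = 0 := by
  have hrec : ∀ n, ∑ j ∈ range (d + 1), e j * c (n + i * j) = 0 := hc
  have hnat : ∀ n : ℕ, c n = 0 := by
    intro n
    induction n using Nat.strong_induction_on with
    | _ n ih =>
      by_cases hn : n < i * d
      · exact hw n hn
      · have h1 := hrec ((n - i * d : ℕ) : ℤ)
        rw [sum_range_succ, sum_eq_zero, zero_add] at h1
        · have h2 : ((n - i * d : ℕ) : ℤ) + (i : ℤ) * d = n := by
            rw [not_lt] at hn
            push_cast [Nat.cast_sub hn]
            ring
          rw [h2] at h1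
          exact (mul_eq_zero.1 h1).resolve_left hd
        · intro j hj
          rw [mem_range] at hj
          have h3 : ((n - i * d : ℕ) : ℤ) + (i : ℤ) * j = ((n - i * d + i * j : ℕ) : ℤ) := by
            push_cast; ring
          have h4 : n - i * d + i * j < n := by
            have : i * j < i * d := Nat.mul_lt_mul_of_pos_left hj hi
            omega
          rw [h3, ih _ h4, mul_zero]
  have hneg : ∀ k : ℕ, ∀ n : ℤ, -(k : ℤ) ≤ n → c n = 0 := by
    intro k
    induction k with
    | zero =>
      intro n hn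
      obtain ⟨m, rfl⟩ := Int.eq_ofNat_of_zero_le (by simpa using hn)
      exact hnat m
    | succ k ih =>
      intro n hn
      by_cases h : -(k : ℤ) ≤ n
      · exact ih n h
      · have h1 := hrec n
        rw [sum_range_succ', sum_eq_zero, zero_add] at h1
        · have := (mul_eq_zero.1 h1).resolve_left h0
          simpa using this
        · intro j _
          rw [ih, mul_zero]
          have : (i : ℤ) * ((j + 1 : ℕ) : ℤ) ≥ 1 := by
            have h5 : 1 ≤ i * (j + 1) := Nat.mul_pos hi (Nat.succ_pos _)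
            exact_mod_cast h5
          push_cast at hn this ⊢
          linarith
  funext n
  exact hneg n.natAbs n (by omega)

/-- A bi-infinite sequence with values in the Noetherian domain `R` that satisfies some linear
recurrence over `K` satisfies a monic recurrence over `R`. -/
theorem exists_monic [IsNoetherianRing R] {i : ℕ} (hi : 0 < i) {d : ℕ} {e : ℕ → K}
    (h0 : e 0 ≠ 0) (hd : e d ≠ 0) {b : ℤ → K} (hb : ∀ n, ∃ r : R, algebraMap R K r = b n)
    (hrec : ∀ n, ∑ j ∈ range (d + 1), e j * b (n + i * j) = 0) :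
    ∃ q : R[X], q.Monic ∧ q.map (algebraMap R K) ∈ ann (i : ℤ) b := by
  classical
  set S : Module.End K (ℤ → K) := sh (i : ℤ) with hS
  set M : Submodule R (ℤ → K) := Submodule.span R (Set.range fun k : ℕ => (S ^ k) b) with hM
  have hSM : ∀ c ∈ M, S c ∈ M := by
    intro c hc
    induction hc using Submodule.span_induction with
    | mem x hx =>
      obtain ⟨k, rfl⟩ := hx
      refine Submodule.subset_span ⟨k + 1, ?_⟩
      change (S ^ (k + 1)) b = S ((S ^ k) b)
      rw [pow_succ', Module.End.mul_apply]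
    | zero => rw [map_zero]; exact M.zero_mem
    | add x y _ _ hx hy => rw [map_add]; exact M.add_mem hx hy
    | smul r x _ hx =>
      have : S (r • x) = r • S x := rfl
      rw [this]
      exact M.smul_mem r hx
  have hMrel : M ≤ rel (R := R) (i : ℤ) d e := by
    refine Submodule.span_le.2 ?_
    rintro _ ⟨k, rfl⟩ n
    have h1 : ∀ j : ℕ, ((S ^ k) b) (n + i * j) = b (n + i * k + i * j) := by
      intro j
      rw [hS, sh_pow_apply]
      congr 1; ring
    change ∑ j ∈ range (d + 1), e j * ((S ^ k) b) (n + i * j) = 0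
    simp only [h1]
    exact hrec _
  -- evaluation
  let φ : (Fin (i * d) → R) →ₗ[R] (Fin (i * d) → K) :=
    { toFun := fun f l => algebraMap R K (f l)
      map_add' := fun f g => by funext l; simp
      map_smul' := fun r f => by funext l; simp [Algebra.smul_def] }
  let E : (ℤ → K) →ₗ[R] (Fin (i * d) → K) :=
    { toFun := fun c l => c ((l : ℕ) : ℤ)
      map_add' := fun _ _ => rfl
      map_smul' := fun _ _ => rfl }
  have hE : ∀ c ∈ M, E c ∈ LinearMap.range φ := by
    intro c hc
    have hle : M ≤ (LinearMap.range φ).comap E := by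
      refine Submodule.span_le.2 ?_
      rintro _ ⟨k, rfl⟩
      change E ((S ^ k) b) ∈ LinearMap.range φ
      choose r hr using hb
      refine ⟨fun l => r ((l : ℕ) + i * k), ?_⟩
      funext l
      change algebraMap R K (r ((l : ℕ) + i * k)) = ((S ^ k) b) ((l : ℕ) : ℤ)
      rw [hr, hS, sh_pow_apply]
    exact hle hc
  let F : M →ₗ[R] LinearMap.range φ := (E.comp M.subtype).codRestrict (LinearMap.range φ)
    (fun c => hE c.1 c.2)
  have hF : Function.Injective F := by
    rw [← LinearMap.ker_eq_bot, LinearMap.ker_eq_bot']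
    rintro ⟨c, hc⟩ h
    have h2 : E c = 0 := congrArg Subtype.val h
    have h3 : c = 0 := by
      refine rel_zero (R := R) hi h0 hd (hMrel hc) fun n hn => ?_
      exact congrFun h2 ⟨n, hn⟩
    exact Subtype.ext h3
  have : IsNoetherian R (LinearMap.range φ) := inferInstance
  have : Module.Finite R M := Module.Finite.of_injective F hF
  let SM : Module.End R M :=
    { toFun := fun c => ⟨S c.1, hSM c.1 c.2⟩
      map_add' := fun _ _ => rfl
      map_smul' := fun _ _ => rfl }
  obtain ⟨q, hq, hq0⟩ := LinearMap.exists_monic_and_aeval_eq_zero R SM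
  refine ⟨q, hq, ?_⟩
  have hpow : ∀ (k : ℕ) (c : M), ((SM ^ k) c : ℤ → K) = (S ^ k) (c : ℤ → K) := by
    intro k
    induction k with
    | zero => intro c; simp
    | succ k ih =>
      intro c
      rw [pow_succ', pow_succ', Module.End.mul_apply, Module.End.mul_apply, ← ih]
      rfl
  have hbM : b ∈ M := Submodule.subset_span ⟨0, by simp⟩
  have h4 : ((aeval SM q) ⟨b, hbM⟩ : ℤ → K) = (aeval S (q.map (algebraMap R K))) b := by
    rw [aeval_eq_sum_range, aeval_eq_sum_range, LinearMap.sum_apply, LinearMap.sum_apply]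
    rw [hq.natDegree_map (algebraMap R K)]
    push_cast
    refine sum_congr rfl fun j _ => ?_
    rw [LinearMap.smul_apply, LinearMap.smul_apply, coeff_map]
    rw [← hpow j ⟨b, hbM⟩]
    change q.coeff j • ((SM ^ j) ⟨b, hbM⟩ : ℤ → K) = _
    funext n
    rw [Pi.smul_apply, Pi.smul_apply, Algebra.smul_def, smul_eq_mul]
  rw [mem_ann, ← hS, ← h4, hq0]
  rfl

theorem coeffs_rec {i : ℤ} {a : ℤ → K} {m : K[X]} (hm : m ∈ ann i a) (n : ℤ) :
    ∑ j ∈ range (m.natDegree + 1), m.coeff j * a (n + i * j) = 0 := by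
  rw [← aeval_sh, mem_ann.1 hm]
  rfl

/-- **Fatou lemma**: the minimal recurrence of a sequence with values in a Noetherian integrally
closed domain `R` has its coefficients in `R`. -/
theorem fatou [IsNoetherianRing R] [IsIntegrallyClosed R] [IsFractionRing R K] {i : ℕ}
    (hi : 0 < i) {a : ℤ → K} (ha : ∀ n, ∃ r : R, algebraMap R K r = a n) {m : K[X]}
    (hm : IsMin (i : ℤ) a m) : ∃ mR : R[X], mR.Monic ∧ mR.map (algebraMap R K) = m := by
  obtain ⟨q, hq, hqa⟩ := exists_monic (R := R) hi (e := m.coeff) (d := m.natDegree)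
    hm.coeff_zero_ne (by rw [hm.monic.coeff_natDegree]; exact one_ne_zero) ha
    (coeffs_rec hm.kills)
  obtain ⟨g, hg⟩ := IsIntegrallyClosed.eq_map_mul_C_of_dvd K hq (hm.dvd _ hqa)
  rw [hm.monic.leadingCoeff, C_1, mul_one] at hg
  refine ⟨g, ?_, hg⟩
  have hinj : Function.Injective (algebraMap R K) := IsFractionRing.injective R K
  have h1 := hm.monic
  rw [← hg] at h1
  exact Polynomial.monic_of_injective hinj h1

theorem fatou_inv [IsNoetherianRing R] [IsIntegrallyClosed R] [IsFractionRing R K] {i : ℕ}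
    (hi : 0 < i) {a : ℤ → K} (ha : ∀ n, ∃ r : R, algebraMap R K r = a n) {m : K[X]}
    (hm : IsMin (i : ℤ) a m) : ∃ r : R, m.coeff 0 * algebraMap R K r = 1 := by
  have hinj : Function.Injective (algebraMap R K) := IsFractionRing.injective R K
  set d := m.natDegree with hd
  obtain ⟨mR, hmR, hmap⟩ := fatou hi ha hm
  -- the reversed sequence
  obtain ⟨q, hq, hqa⟩ := exists_monic (R := R) (K := K) hi (e := fun j => m.coeff (d - j)) (d := d)
    (b := fun n => a (-n)) (by
      rw [Nat.sub_zero, hd, hm.monic.coeff_natDegree]; exact one_ne_zero) (by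
      rw [Nat.sub_self]; exact hm.coeff_zero_ne) (fun n => ha _) (by
      intro n
      have h1 := coeffs_rec hm.kills (-n - i * d)
      rw [← hd, ← sum_range_reflect] at h1
      rw [← h1]
      refine sum_congr rfl fun j hj => ?_
      rw [mem_range] at hj
      have h2 : d + 1 - 1 - j = d - j := by omega
      rw [h2]
      congr 2
      rw [Nat.cast_sub (by omega)]
      ring)
  have hqd : (q.map (algebraMap R K)).natDegree = q.natDegree := hq.natDegree_map _
  set D := q.natDegree with hD
  -- the reversed polynomial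
  set c : R[X] := ∑ l ∈ range (D + 1), C (q.coeff l) * X ^ (D - l) with hc
  have hc0 : c.coeff 0 = 1 := by
    rw [hc, finsetSum_coeff, sum_range_succ, sum_eq_zero, zero_add]
    · rw [Nat.sub_self, pow_zero, mul_one, coeff_C_zero, hD, hq.coeff_natDegree]
    · intro l hl
      rw [mem_range] at hl
      rw [coeff_C_mul, coeff_X_pow, if_neg (by omega), mul_zero]
  have hca : c.map (algebraMap R K) ∈ ann (i : ℤ) a := by
    rw [mem_ann]
    funext n
    have h1 := coeffs_rec hqa (-n - i * D)
    rw [hqd] at h1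
    rw [hc, Polynomial.map_sum, map_sum, LinearMap.sum_apply, Finset.sum_apply, Pi.zero_apply,
      ← h1]
    refine sum_congr rfl fun l hl => ?_
    rw [mem_range] at hl
    rw [Polynomial.map_mul, Polynomial.map_pow, map_X, map_C, map_mul, Module.End.mul_apply,
      aeval_C, map_pow, aeval_X, coeff_map]
    rw [Module.algebraMap_end_apply, Pi.smul_apply, sh_pow_apply, smul_eq_mul]
    congr 2
    rw [Nat.cast_sub (by omega)]
    ring
  have hdvd : mR ∣ c := by
    rw [← Polynomial.map_dvd_map (algebraMap R K) hinj hmR, hmap]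
    exact hm.dvd _ hca
  obtain ⟨h, hh⟩ := hdvd
  refine ⟨h.coeff 0, ?_⟩
  have h2 : mR.coeff 0 * h.coeff 0 = 1 := by
    rw [← mul_coeff_zero, ← hh, hc0]
  rw [← hmap, coeff_map, ← map_mul, h2, map_one]

/-- Coefficients of the minimal recurrence are fixed by ring endomorphisms acting on the sequence
by a shift. -/
theorem fixed_of_shift {i : ℤ} {a : ℤ → K} {m : K[X]} (hm : IsMin i a m) (θ : K →+* K) (r : ℤ)
    (hθ : ∀ n, θ (a n) = a (n + r)) (j : ℕ) : θ (m.coeff j) = m.coeff j := by
  have h1 : m.map θ ∈ ann i a := by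
    rw [mem_ann]
    funext n
    rw [aeval_sh, natDegree_map]
    have h2 := congrArg θ (coeffs_rec hm.kills (n - r))
    rw [map_sum, map_zero] at h2
    rw [Pi.zero_apply, ← h2]
    refine sum_congr rfl fun j _ => ?_
    rw [coeff_map, map_mul, hθ]
    congr 2
    ring
  have h2 := hm.dvd _ h1
  have h3 : m.map θ = m := by
    refine (eq_of_monic_of_dvd_of_natDegree_le hm.monic (hm.monic.map θ) h2 ?_)
    rw [natDegree_map]
  conv_rhs => rw [← h3]
  rw [coeff_map]

end Fatou

end Pool.Agent.R266.TS
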