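import Mathlib
import Pool.Agent.R266.TS.A
import Pool.Agent.R266.TS.C

set_option autoImplicit false
set_option linter.unusedSectionVars false

/-!
# The Fatou lemma in Laurent rings, and common units
-/

namespace Pool.Agent.R266.TS

open Finset Polynomial Pool.Agent.H489R3

section Loc

variable {V : Type*} [Fintype V] [DecidableEq V] {K : Type*} [Field K]

theorem laurent_fatou {y : V → K} (hy : AlgebraicIndependent ℤ y)
    (hfrac : ∀ z : K, ∃ f ∈ LRing y, ∃ g ∈ LRing y, z = f / g) {i : ℕ} (hi : 0 < i)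
    {a : ℤ → K} (ha : ∀ n, a n ∈ LRing y) {m : K[X]} (hm : IsMin (i : ℤ) a m) :
    (∀ j, m.coeff j ∈ LRing y) ∧ (m.coeff 0)⁻¹ ∈ LRing y := by
  classical
  let A := MvPolynomial V ℤ
  let g : A := ∏ i, MvPolynomial.X i
  let ψ : A →+* K := (MvPolynomial.aeval (R := ℤ) y).toRingHom
  have hψ : Function.Injective ψ := hy
  have hψX : ∀ i, ψ (MvPolynomial.X i) = y i := fun i => MvPolynomial.aeval_X _ _
  have hy0 : ∀ i, y i ≠ 0 := fun i => x_ne_zero hy i
  have hg0 : ψ g ≠ 0 := by
    simp only [g, map_prod, hψX]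
    exact prod_ne_zero_iff.2 fun i _ => hy0 i
  have hgne : g ≠ 0 := fun h => hg0 (by rw [h, map_zero])
  have hunit : IsUnit (ψ g) := hg0.isUnit
  let R := Localization.Away g
  have hM : Submonoid.powers g ≤ nonZeroDivisors A := by
    refine powers_le_nonZeroDivisors_of_noZeroDivisors hgne
  let φ : R →+* K := IsLocalization.Away.lift g hunit
  have hφA : ∀ f : A, φ (algebraMap A R f) = ψ f := fun f => IsLocalization.Away.lift_eq g hunit f
  have hsurj : ∀ r : R, ∃ (f : A) (n : ℕ), r * algebraMap A R (g ^ n) = algebraMap A R f := by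
    intro r
    obtain ⟨⟨f, s⟩, hs⟩ := IsLocalization.surj (Submonoid.powers g) r
    obtain ⟨n, hn⟩ := s.2
    refine ⟨f, n, ?_⟩
    have hn' : g ^ n = (s : A) := hn
    rw [hn']
    exact hs
  have hφinj : Function.Injective φ := by
    rw [injective_iff_map_eq_zero]
    intro r hr
    obtain ⟨f, n, h⟩ := hsurj r
    have h1 := congrArg φ h
    rw [map_mul, hr, zero_mul, hφA] at h1
    have h2 : f = 0 := (injective_iff_map_eq_zero ψ).1 hψ f h1.symm
    rw [h2, map_zero] at h
    have h3 : IsUnit (algebraMap A R (g ^ n)) :=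
      IsLocalization.map_units R (⟨g ^ n, n, rfl⟩ : Submonoid.powers g)
    exact (h3.mul_left_eq_zero).1 h
  have hrange : ∀ z : K, z ∈ LRing y ↔ ∃ r, φ r = z := by
    intro z
    constructor
    · intro hz
      have hle : LRing y ≤ φ.range := by
        refine Subring.closure_le.2 ?_
        rintro w (⟨j, rfl⟩ | ⟨j, rfl⟩)
        · exact ⟨algebraMap A R (MvPolynomial.X j), by rw [hφA, hψX]⟩
        · have h1 : IsUnit (algebraMap A R g) := IsLocalization.Away.algebraMap_isUnit g
          obtain ⟨u, hu⟩ := h1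
          refine ⟨algebraMap A R (∏ l ∈ univ.erase j, MvPolynomial.X l) * ↑u⁻¹, ?_⟩
          have h2 : φ ↑u⁻¹ = (ψ g)⁻¹ := by
            rw [← hφA, ← hu]
            symm
            exact inv_eq_of_mul_eq_one_right (by rw [← map_mul, Units.mul_inv, map_one])
          rw [map_mul, h2, hφA]
          have h3 : ψ g = y j * ψ (∏ l ∈ univ.erase j, MvPolynomial.X l) := by
            rw [← hψX j, ← map_mul]
            congr 1
            exact (mul_prod_erase univ _ (mem_univ j)).symm
          have h4 : ψ (∏ l ∈ univ.erase j, MvPolynomial.X l) ≠ 0 := by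
            intro h
            rw [h, mul_zero] at h3
            exact hg0 h3
          rw [h3]
          have := hy0 j
          field_simp
      exact hle hz
    · rintro ⟨r, rfl⟩
      obtain ⟨f, n, h⟩ := hsurj r
      have h1 := congrArg φ h
      rw [map_mul, hφA, hφA, map_pow] at h1
      have h2 : φ r = ψ f * ((ψ g)⁻¹) ^ n := by
        rw [← h1, inv_pow, mul_assoc, mul_inv_cancel₀ (pow_ne_zero n hg0), mul_one]
      rw [h2]
      refine Subring.mul_mem _ (aeval_mem_LRing y f) (Subring.pow_mem _ ?_ n)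
      simp only [g, map_prod, hψX, ← prod_inv_distrib]
      exact Subring.prod_mem _ fun l _ => inv_mem_LRing y l
  have hdom : IsDomain R := IsLocalization.isDomain_localization hM
  have hnoeth : IsNoetherianRing R :=
    IsLocalization.isNoetherianRing (Submonoid.powers g) R inferInstance
  have hint : IsIntegrallyClosed R := isIntegrallyClosed_of_isLocalization R (Submonoid.powers g) hM
  let _ : Algebra R K := φ.toAlgebra
  have hmapφ : ∀ r, algebraMap R K r = φ r := fun r => rfl
  have hfaith : FaithfulSMul R K := (faithfulSMul_iff_algebraMap_injective R K).2 hφinj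
  have hfr : IsFractionRing R K := by
    refine IsFractionRing.of_field R K fun z => ?_
    obtain ⟨f, hf, g', hg', hz⟩ := hfrac z
    obtain ⟨r, hr⟩ := (hrange f).1 hf
    obtain ⟨r', hr'⟩ := (hrange g').1 hg'
    exact ⟨r, r', by rw [hmapφ, hmapφ, hr, hr', hz]⟩
  have ha' : ∀ n, ∃ r : R, algebraMap R K r = a n := fun n => (hrange _).1 (ha n)
  constructor
  · intro j
    obtain ⟨mR, -, hmR⟩ := fatou hi ha' hm
    rw [hrange, ← hmR]
    exact ⟨mR.coeff j, by rw [coeff_map]; rfl⟩
  · obtain ⟨r, hr⟩ := fatou_inv hi ha' hm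
    rw [hrange]
    exact ⟨r, by rw [← hmapφ]; exact (inv_eq_of_mul_eq_one_right hr).symm⟩

/-! ### Units -/

theorem clear_denoms {y : V → K} (hy0 : ∀ i, y i ≠ 0) {z : K} (hz : z ∈ LRing y) :
    ∃ (f : MvPolynomial V ℤ) (e : V → ℕ), z * ∏ i, y i ^ e i = MvPolynomial.aeval y f := by
  have hmon : ∀ e : V → ℕ, MvPolynomial.aeval y (∏ i, MvPolynomial.X i ^ e i : MvPolynomial V ℤ) =
      ∏ i, y i ^ e i := by
    intro e
    simp [map_prod]
  induction hz using Subring.closure_induction with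
  | mem z hz =>
    rcases hz with ⟨j, rfl⟩ | ⟨j, rfl⟩
    · exact ⟨MvPolynomial.X j, 0, by simp⟩
    · refine ⟨1, Pi.single j 1, ?_⟩
      have h1 : ∏ i, y i ^ (Pi.single j 1 : V → ℕ) i = y j := by
        rw [prod_eq_single j]
        · simp
        · intro b _ hb; simp [hb]
        · simp
      change (y j)⁻¹ * _ = _
      rw [h1, inv_mul_cancel₀ (hy0 j), map_one]
  | zero => exact ⟨0, 0, by simp⟩
  | one => exact ⟨1, 0, by simp⟩
  | add a b _ _ iha ihb =>
    obtain ⟨f, e, h⟩ := iha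
    obtain ⟨f', e', h'⟩ := ihb
    refine ⟨f * ∏ i, MvPolynomial.X i ^ e' i + f' * ∏ i, MvPolynomial.X i ^ e i, e + e', ?_⟩
    rw [map_add, map_mul, map_mul, ← h, ← h', hmon, hmon]
    simp only [Pi.add_apply, pow_add, prod_mul_distrib]
    ring
  | neg a _ iha =>
    obtain ⟨f, e, h⟩ := iha
    exact ⟨-f, e, by rw [map_neg, ← h]; ring⟩
  | mul a b _ _ iha ihb =>
    obtain ⟨f, e, h⟩ := iha
    obtain ⟨f', e', h'⟩ := ihb
    refine ⟨f * f', e + e', ?_⟩
    rw [map_mul, ← h, ← h']
    simp only [Pi.add_apply, pow_add, prod_mul_distrib]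
    ring

theorem unit_monomial {y : V → K} (hy : AlgebraicIndependent ℤ y) {z : K} (hz0 : z ≠ 0)
    (hz : z ∈ LRing y) (hz' : z⁻¹ ∈ LRing y) :
    ∃ u : ℤ, (u = 1 ∨ u = -1) ∧ ∃ a b : V → ℕ, z * ∏ i, y i ^ a i = u * ∏ i, y i ^ b i := by
  have hy0 : ∀ i, y i ≠ 0 := fun i => x_ne_zero hy i
  obtain ⟨f, a, hf⟩ := clear_denoms hy0 hz
  obtain ⟨g, b, hg⟩ := clear_denoms hy0 hz'
  have hinj : Function.Injective (MvPolynomial.aeval (R := ℤ) y) := hy
  have hmonom : ∀ (n : V →₀ ℕ) (u : ℤ), MvPolynomial.aeval y (MvPolynomial.monomial n u) =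
      (u : K) * ∏ i, y i ^ n i := by
    intro n u
    rw [MvPolynomial.aeval_monomial]
    simp [Finsupp.prod_fintype]
  have h1 : f * g = MvPolynomial.monomial (Finsupp.equivFunOnFinite.symm (a + b)) 1 := by
    apply hinj
    rw [map_mul, ← hf, ← hg, hmonom]
    simp only [Finsupp.equivFunOnFinite_symm_apply_apply, Pi.add_apply, pow_add, prod_mul_distrib,
      Int.cast_one, one_mul]
    field_simp
  have h2 : f ∣ MvPolynomial.monomial (Finsupp.equivFunOnFinite.symm (a + b)) 1 :=
    Dvd.intro _ h1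
  obtain ⟨n, u, -, hu, rfl⟩ := MvPolynomial.dvd_monomial_one_iff_exists.1 h2
  exact ⟨u, Int.isUnit_iff.1 hu, a, n, by rw [hf, hmonom]⟩

theorem pow_aux {u u' : ℤ} (hu : u = 1 ∨ u = -1) (hu' : u' = 1 ∨ u' = -1) {p q : ℕ}
    (h : u * 2 ^ p = u' * 2 ^ q) : p = q := by
  have h1 := congrArg Int.natAbs h
  rw [Int.natAbs_mul, Int.natAbs_mul, Int.natAbs_pow, Int.natAbs_pow] at h1
  have h2 : u.natAbs = 1 := by rcases hu with rfl | rfl <;> rfl
  have h3 : u'.natAbs = 1 := by rcases hu' with rfl | rfl <;> rfl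
  rw [h2, h3, one_mul, one_mul] at h1
  exact Nat.pow_right_injective (le_refl 2) h1

/-- A common unit of the Laurent rings of a seed and of its neighbours is `± 1`. -/
theorem common_unit {s : Seed V K} (hs : GoodF s) {z : K} (hz0 : z ≠ 0)
    (hz : z ∈ LRing s.x) (hz' : z⁻¹ ∈ LRing s.x)
    (hk : ∀ k, z ∈ LRing (s.mutate k).x ∧ z⁻¹ ∈ LRing (s.mutate k).x) : z = 1 ∨ z = -1 := by
  obtain ⟨u, hu, a, b, hab⟩ := unit_monomial hs.alg hz0 hz hz'
  have hx0 : ∀ i, s.x i ≠ 0 := fun i => x_ne_zero hs.alg i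
  have key : ∀ k, a k = b k := by
    intro k
    obtain ⟨u', hu', a', b', hab'⟩ := unit_monomial (hs.mutate k).alg hz0 (hk k).1 (hk k).2
    set P := exch s.B s.x k with hP
    have hP0 : P ≠ 0 := exch_ne_zero hs.alg k
    have hsplit : ∀ e : V → ℕ, ∏ i, s.x i ^ e i = s.x k ^ e k * ∏ i ∈ univ.erase k, s.x i ^ e i :=
      fun e => (mul_prod_erase univ _ (mem_univ k)).symm
    have hsplit' : ∀ e : V → ℕ, ∏ i, (s.mutate k).x i ^ e i =
        (P / s.x k) ^ e k * ∏ i ∈ univ.erase k, s.x i ^ e i := by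
      intro e
      rw [← mul_prod_erase univ _ (mem_univ k), mutate_x_self]
      congr 1
      refine prod_congr rfl fun i hi => ?_
      rw [mutate_x_ne (ne_of_mem_erase hi)]
    rw [hsplit, hsplit] at hab
    rw [hsplit', hsplit'] at hab'
    set Wa := ∏ i ∈ univ.erase k, s.x i ^ a i with hWa
    set Wb := ∏ i ∈ univ.erase k, s.x i ^ b i with hWb
    set Wa' := ∏ i ∈ univ.erase k, s.x i ^ a' i with hWa'
    set Wb' := ∏ i ∈ univ.erase k, s.x i ^ b' i with hWb'
    have hxk := hx0 k
    have e1 : (P / s.x k) ^ a' k * s.x k ^ a' k = P ^ a' k := by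
      rw [← mul_pow, div_mul_cancel₀ _ hxk]
    have e2 : (P / s.x k) ^ b' k * s.x k ^ b' k = P ^ b' k := by
      rw [← mul_pow, div_mul_cancel₀ _ hxk]
    have h1 : (u : K) * (s.x k ^ b k * s.x k ^ b' k * Wb * Wa' * P ^ a' k) =
        u' * (s.x k ^ a k * s.x k ^ a' k * Wa * Wb' * P ^ b' k) := by
      have h2 : z * ((u : K) * (s.x k ^ b k * s.x k ^ b' k * Wb * Wa' * P ^ a' k)) =
          z * (u' * (s.x k ^ a k * s.x k ^ a' k * Wa * Wb' * P ^ b' k)) := by
        rw [← e1, ← e2]
        calc z * ((u : K) * (s.x k ^ b k * s.x k ^ b' k * Wb * Wa' *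
              ((P / s.x k) ^ a' k * s.x k ^ a' k))) =
            (u * (s.x k ^ b k * Wb)) * (z * ((P / s.x k) ^ a' k * Wa')) *
              (s.x k ^ b' k * s.x k ^ a' k) := by ring
          _ = (z * (s.x k ^ a k * Wa)) * (u' * ((P / s.x k) ^ b' k * Wb')) *
              (s.x k ^ b' k * s.x k ^ a' k) := by rw [hab, hab']
          _ = _ := by ring
      exact mul_left_cancel₀ hz0 h2
    -- polynomial identity
    have hinj : Function.Injective (MvPolynomial.aeval (R := ℤ) s.x) := hs.alg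
    have haW : ∀ e : V → ℕ, MvPolynomial.aeval s.x
        (∏ i ∈ univ.erase k, MvPolynomial.X i ^ e i : MvPolynomial V ℤ) =
        ∏ i ∈ univ.erase k, s.x i ^ e i := by
      intro e; simp [map_prod]
    have h3 : (MvPolynomial.C u : MvPolynomial V ℤ) * (MvPolynomial.X k ^ b k *
        MvPolynomial.X k ^ b' k * (∏ i ∈ univ.erase k, MvPolynomial.X i ^ b i) *
        (∏ i ∈ univ.erase k, MvPolynomial.X i ^ a' i) * exchP s.B k ^ a' k) =
        MvPolynomial.C u' * (MvPolynomial.X k ^ a k *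
        MvPolynomial.X k ^ a' k * (∏ i ∈ univ.erase k, MvPolynomial.X i ^ a i) *
        (∏ i ∈ univ.erase k, MvPolynomial.X i ^ b' i) * exchP s.B k ^ b' k) := by
      apply hinj
      simp only [map_mul, map_pow, MvPolynomial.aeval_X, haW, aeval_exchP]
      have hC : ∀ w : ℤ, MvPolynomial.aeval s.x (MvPolynomial.C w : MvPolynomial V ℤ) = (w : K) :=
        fun w => by simp
      rw [hC, hC]
      exact h1
    -- all variables equal to 1
    have ev1 : ∀ e : V → ℕ, MvPolynomial.aeval (fun _ : V => (1 : ℤ))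
        (∏ i ∈ univ.erase k, MvPolynomial.X i ^ e i : MvPolynomial V ℤ) = 1 := by
      intro e; simp [map_prod]
    have h4 := congrArg (MvPolynomial.aeval (fun _ : V => (1 : ℤ))) h3
    simp only [map_mul, map_pow, MvPolynomial.aeval_X, ev1, aeval_exchP, one_pow, one_mul,
      mul_one] at h4
    have hC : ∀ (x : V → ℤ) (w : ℤ), MvPolynomial.aeval x (MvPolynomial.C w : MvPolynomial V ℤ) =
        w := fun x w => by simp
    have hex : exch s.B (fun _ : V => (1 : ℤ)) k = 2 := by simp [exch]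
    rw [hC, hC, hex] at h4
    have h5 : a' k = b' k := pow_aux hu hu' h4
    -- cancel
    rw [h5, ← mul_assoc, ← mul_assoc (MvPolynomial.C u')] at h3
    have h6 := mul_right_cancel₀ (pow_ne_zero _ (exchP_ne_zero s.B k)) h3
    have ev2 : ∀ e : V → ℕ, MvPolynomial.aeval (fun i : V => if i = k then (2 : ℤ) else 1)
        (∏ i ∈ univ.erase k, MvPolynomial.X i ^ e i : MvPolynomial V ℤ) = 1 := by
      intro e
      rw [map_prod]
      refine prod_eq_one fun i hi => ?_
      rw [map_pow, MvPolynomial.aeval_X, if_neg (ne_of_mem_erase hi), one_pow]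
    have h7 := congrArg (MvPolynomial.aeval (fun i : V => if i = k then (2 : ℤ) else 1)) h6
    simp only [map_mul, map_pow, MvPolynomial.aeval_X, ev2, if_true, mul_one] at h7
    rw [hC, hC, ← pow_add, ← pow_add] at h7
    have h8 := pow_aux hu hu' h7
    omega
  have hab2 : a = b := funext key
  rw [hab2] at hab
  have h9 : (∏ i, s.x i ^ b i) ≠ 0 := prod_ne_zero_iff.2 fun i _ => pow_ne_zero _ (hx0 i)
  have h10 := mul_right_cancel₀ h9 hab
  rcases hu with rfl | rfl
  · left; simpa using h10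
  · right; simpa using h10

end Loc

end Pool.Agent.R266.TS
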