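import Mathlib
import Pool.Agent.R266.TS.B
import Pool.Agent.R266.TS.D

set_option autoImplicit false
set_option linter.unusedSectionVars false

/-!
# Conserved quantities and the minimal recurrence
-/

namespace Pool.Agent.R266.TS

open Finset Polynomial Pool.Agent.H489R3

section General

variable {V : Type*} [Fintype V] [DecidableEq V] {K : Type*} [Field K]

theorem ev_eq (y : V → K) (f : MvPolynomial V ℤ) : ev y f = MvPolynomial.aeval y f := rfl

theorem ev_X (y : V → K) (v : V) : ev y (MvPolynomial.X v) = y v :=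
  MvPolynomial.eval₂Hom_X' _ _ _

theorem ev_injective {y : V → K} (hy : AlgebraicIndependent ℤ y) : Function.Injective (ev y) := hy

theorem ev_mem {s₀ s : Seed V K} (h0 : GoodF s₀) (h : Reach Set.univ s₀ s)
    (f : MvPolynomial V ℤ) : ev s.x f ∈ LRing s₀.x := LRing_le h0 h

end General

variable {V : Type*} [Fintype V] [DecidableEq V] {Q : BiQuiver V}

theorem ev_var_mem {s : Seed V (RF V)} (hs : Reach Set.univ (seed0 Q) s)
    (f : MvPolynomial V ℤ) : ev var f ∈ LRing s.x :=
  ev_mem (reach_goodF goodF_seed0 hs) (reach_symm goodF_seed0 hs) f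

theorem algebraMap_eq (f : MvPolynomial V ℤ) :
    algebraMap (MvPolynomial V ℤ) (RF V) f = ev var f := by
  have h : algebraMap (MvPolynomial V ℤ) (RF V) = ev var := by
    refine MvPolynomial.ringHom_ext ?_ ?_
    · intro r
      exact RingHom.congr_fun (RingHom.ext_int
        ((algebraMap (MvPolynomial V ℤ) (RF V)).comp MvPolynomial.C)
        ((ev (var (V := V))).comp MvPolynomial.C)) r
    · intro v
      rw [ev_X]; rfl
  rw [h]

theorem frac_mem {s : Seed V (RF V)} (hs : Reach Set.univ (seed0 Q) s) (z : RF V) :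
    ∃ f ∈ LRing s.x, ∃ g ∈ LRing s.x, z = f / g := by
  obtain ⟨f, g, -, h⟩ := IsFractionRing.div_surjective (A := MvPolynomial V ℤ) z
  refine ⟨_, ev_var_mem hs f, _, ev_var_mem hs g, ?_⟩
  rw [← h, algebraMap_eq, algebraMap_eq]

theorem T_mem {T : V → ℤ → RF V} (hT : IsT Q T) {s : Seed V (RF V)}
    (hs : Reach Set.univ (seed0 Q) s) (v : V) (n : ℤ) : T v (2 * n + Q.eps v) ∈ LRing s.x :=
  laurent_free (reach_goodF goodF_seed0 hs) (reach_trans (reach_symm goodF_seed0 hs) (belt hT n)) v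

theorem T_ne {T : V → ℤ → RF V} (hT : IsT Q T) (v : V) (t : ℤ) (h : Even (t + Q.eps v)) :
    T v t ≠ 0 := by
  obtain ⟨k, hk⟩ := h
  have h1 := x_ne_zero (reach_goodF goodF_seed0 (belt hT (k - Q.eps v))).alg v
  have h2 : 2 * (k - Q.eps v) + Q.eps v = t := by linarith
  change T v (2 * (k - Q.eps v) + Q.eps v) ≠ 0 at h1
  rwa [h2] at h1

open scoped Classical in
/-- The relations of the T-system. -/
def Rels (Q : BiQuiver V) (T : V → ℤ → RF V) : Prop :=
  ∀ v t, Odd (t + Q.eps v) → T v (t + 1) * T v (t - 1) =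
      ∏ u ∈ univ.filter (fun u => Q.arr u v), T u t + ∏ w ∈ univ.filter (fun w => Q.arr v w), T w t

theorem rels_congr {U W : V → ℤ → RF V} (hU : Rels Q U) (hW : Rels Q W) {v : V} {t : ℤ}
    (hv : Odd (t + Q.eps v)) (h : ∀ u, Even (t + Q.eps u) → U u t = W u t) :
    U v (t + 1) * U v (t - 1) = W v (t + 1) * W v (t - 1) := by
  classical
  have hv' := Int.odd_iff.1 hv
  rw [hU v t hv, hW v t hv]
  congr 1
  · refine prod_congr rfl fun u hu => ?_
    rw [mem_filter] at hu
    have h1 := Q.bip _ _ hu.2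
    refine h u (Int.even_iff.2 ?_)
    have := Q.eps01 u
    have := Q.eps01 v
    omega
  · refine prod_congr rfl fun u hu => ?_
    rw [mem_filter] at hu
    have h1 := Q.bip _ _ hu.2
    refine h u (Int.even_iff.2 ?_)
    have := Q.eps01 u
    have := Q.eps01 v
    omega

theorem uniq {U W : V → ℤ → RF V} (hU : Rels Q U) (hW : Rels Q W)
    (h0 : ∀ v, U v (Q.eps v) = W v (Q.eps v))
    (hne : ∀ v t, Even (t + Q.eps v) → W v t ≠ 0) (t : ℤ) :
    (∀ v, Even (t + Q.eps v) → U v t = W v t) ∧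
      ∀ v, Even (t + 1 + Q.eps v) → U v (t + 1) = W v (t + 1) := by
  induction t using Int.induction_on with
  | zero =>
    constructor
    · intro v hv
      have h1 := Int.even_iff.1 hv
      have h2 : Q.eps v = 0 := by have := Q.eps01 v; omega
      have h3 := h0 v
      rwa [h2] at h3
    · intro v hv
      have h1 := Int.even_iff.1 hv
      have h2 : Q.eps v = 1 := by have := Q.eps01 v; omega
      have h3 := h0 v
      rwa [h2] at h3
  | succ n ih =>
    refine ⟨ih.2, fun v hv => ?_⟩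
    have hv1 := Int.even_iff.1 hv
    have hodd : Odd ((n : ℤ) + 1 + Q.eps v) := Int.odd_iff.2 (by omega)
    have heven : Even ((n : ℤ) + Q.eps v) := Int.even_iff.2 (by omega)
    have h1 := rels_congr hU hW hodd ih.2
    have h2 : (n : ℤ) + 1 - 1 = n := by ring
    rw [h2, ih.1 v heven] at h1
    exact mul_right_cancel₀ (hne v _ heven) h1
  | pred n ih =>
    have e1 : (-(n : ℤ) - 1 + 1) = -(n : ℤ) := by ring
    rw [e1]
    refine ⟨fun v hv => ?_, ih.1⟩
    have hv1 := Int.even_iff.1 hv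
    have hodd : Odd (-(n : ℤ) + Q.eps v) := Int.odd_iff.2 (by omega)
    have heven : Even (-(n : ℤ) + 1 + Q.eps v) := Int.even_iff.2 (by omega)
    have h1 := rels_congr hU hW hodd ih.1
    rw [ih.2 v heven] at h1
    exact mul_left_cancel₀ (hne v _ heven) h1

/-- The substitution `x v ↦ T v (2 r + eps v)`. -/
noncomputable def theta {T : V → ℤ → RF V} (hT : IsT Q T) (r : ℤ) : RF V →+* RF V :=
  IsFractionRing.lift (A := MvPolynomial V ℤ) (K := RF V)
    (g := ev (fun v => T v (2 * r + Q.eps v)))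
    (ev_injective (reach_goodF goodF_seed0 (belt hT r)).alg)

theorem theta_ev {T : V → ℤ → RF V} (hT : IsT Q T) (r : ℤ) (f : MvPolynomial V ℤ) :
    theta hT r (ev var f) = ev (fun v => T v (2 * r + Q.eps v)) f := by
  rw [← algebraMap_eq]
  exact IsFractionRing.lift_algebraMap _ _

theorem theta_var {T : V → ℤ → RF V} (hT : IsT Q T) (r : ℤ) (v : V) :
    theta hT r (var v) = T v (2 * r + Q.eps v) := by
  have := theta_ev hT r (MvPolynomial.X v)
  rwa [ev_X, ev_X] at this

theorem theta_T {T : V → ℤ → RF V} (hT : IsT Q T) (r : ℤ) (v : V) (t : ℤ)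
    (ht : Even (t + Q.eps v)) : theta hT r (T v t) = T v (t + 2 * r) := by
  classical
  refine (uniq (Q := Q) (U := fun v t => theta hT r (T v t)) (W := fun v t => T v (t + 2 * r))
    ?_ ?_ ?_ ?_ t).1 v ht
  · intro v t h
    change theta hT r (T v (t + 1)) * theta hT r (T v (t - 1)) = _
    rw [← map_mul, hT.2 v t h, map_add, map_prod, map_prod]
  · intro v t h
    change T v (t + 1 + 2 * r) * T v (t - 1 + 2 * r) = _
    have h1 := hT.2 v (t + 2 * r) (by
      have := Int.odd_iff.1 h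
      exact Int.odd_iff.2 (by omega))
    have e1 : t + 1 + 2 * r = t + 2 * r + 1 := by ring
    have e2 : t - 1 + 2 * r = t + 2 * r - 1 := by ring
    rw [e1, e2]
    exact h1
  · intro v
    change theta hT r (T v (Q.eps v)) = T v (Q.eps v + 2 * r)
    rw [hT.1, theta_var, add_comm]
  · intro v t h
    refine T_ne hT v _ ?_
    have := Int.even_iff.1 h
    exact Int.even_iff.2 (by omega)

theorem conserved_of_fixed {T : V → ℤ → RF V} (hT : IsT Q T) {F : RF V}
    (hF : ∀ r, theta hT r F = F) : Conserved Q T F := by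
  rintro s ⟨r, hr⟩ f g hg h
  have hs : s = 2 * r := by omega
  subst hs
  have hinj := ev_injective (reach_goodF goodF_seed0 (belt hT r)).alg
  constructor
  · intro h0
    exact hg ((injective_iff_map_eq_zero _).1 hinj g h0)
  · have h1 := congrArg (theta hT r) h
    rw [map_mul, hF, theta_ev, theta_ev] at h1
    exact h1

/-! ### Recurrence polynomials -/

section Main

variable {T : V → ℤ → RF V} {v : V}

/-- The sequence of the T-system values at `v`. -/
def seq (Q : BiQuiver V) (T : V → ℤ → RF V) (v : V) (n : ℤ) : RF V := T v (2 * n + Q.eps v)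

/-- The characteristic polynomial. -/
noncomputable def cpoly (D : ℕ) (J : ℕ → RF V) : (RF V)[X] :=
  ∑ j ∈ range (D + 1), C ((-1) ^ (D - j) * J (D - j)) * X ^ j

theorem cpoly_coeff (D : ℕ) (J : ℕ → RF V) (j : ℕ) :
    (cpoly D J).coeff j = if j ≤ D then (-1) ^ (D - j) * J (D - j) else 0 := by
  unfold cpoly
  rw [finsetSum_coeff]
  simp only [coeff_C_mul_X_pow]
  by_cases h : j ≤ D
  · rw [if_pos h, sum_eq_single j]
    · rw [if_pos rfl]
    · intro b _ hb; rw [if_neg (Ne.symm hb)]
    · intro hj; exact absurd (mem_range.2 (by omega)) hj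
  · rw [if_neg h]
    refine sum_eq_zero fun b hb => ?_
    rw [mem_range] at hb
    rw [if_neg (by omega)]

theorem cpoly_natDegree_le (D : ℕ) (J : ℕ → RF V) : (cpoly D J).natDegree ≤ D := by
  rw [natDegree_le_iff_coeff_eq_zero]
  intro j hj
  rw [cpoly_coeff, if_neg (by omega)]

theorem cpoly_monic {D : ℕ} {J : ℕ → RF V} (h : J 0 = 1) : (cpoly D J).Monic :=
  monic_of_natDegree_le_of_coeff_eq_one D (cpoly_natDegree_le D J) (by
    rw [cpoly_coeff, if_pos le_rfl, Nat.sub_self, h, pow_zero, one_mul])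

theorem cpoly_natDegree {D : ℕ} {J : ℕ → RF V} (h : J 0 = 1) : (cpoly D J).natDegree = D := by
  refine natDegree_eq_of_le_of_coeff_ne_zero (cpoly_natDegree_le D J) ?_
  rw [cpoly_coeff, if_pos le_rfl, Nat.sub_self, h, pow_zero, one_mul]
  exact one_ne_zero

theorem cpoly_mem {i : ℕ} {N : ℕ} {J : ℕ → RF V} (h : IsData Q T v (2 * i) N J) :
    cpoly (N + 1) J ∈ ann (i : ℤ) (seq Q T v) := by
  rw [mem_ann]
  funext n
  rw [aeval_sh' _ _ (N + 1) (cpoly_natDegree_le _ _), Pi.zero_apply]
  have h1 := h.recur (2 * n + Q.eps v) (Int.even_iff.2 (by omega))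
  rw [← sum_range_reflect] at h1
  rw [← h1]
  refine sum_congr rfl fun j hj => ?_
  rw [mem_range] at hj
  rw [cpoly_coeff, if_pos (by omega)]
  have e1 : N + 2 - 1 - j = N + 1 - j := by omega
  rw [e1]
  unfold seq
  congr 2
  rw [Nat.cast_sub (by omega)]
  push_cast
  ring

theorem data_of_poly (hT : IsT Q T) {i : ℕ} (hi : 0 < i) {p : (RF V)[X]} {N : ℕ} (hp : p.Monic)
    (hd : p.natDegree = N + 1) (h0 : p.coeff 0 = (-1) ^ (N + 1)) (hfix : ∀ r, p.map (theta hT r) = p)
    (hk : p ∈ ann (i : ℤ) (seq Q T v)) :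
    IsData Q T v (2 * i) N fun k => (-1) ^ k * p.coeff (N + 1 - k) := by
  have hsq : ∀ k : ℕ, ((-1 : RF V) ^ k) * (-1) ^ k = 1 := by
    intro k
    rw [← mul_pow]; simp
  refine ⟨by omega, even_two_mul _, ?_, ?_, ?_, ?_⟩
  · change (-1) ^ 0 * p.coeff (N + 1 - 0) = 1
    rw [Nat.sub_zero, ← hd, hp.coeff_natDegree]; simp
  · change (-1) ^ (N + 1) * p.coeff (N + 1 - (N + 1)) = 1
    rw [Nat.sub_self, h0, hsq]
  · intro k _
    refine conserved_of_fixed hT fun r => ?_
    have h1 : theta hT r (p.coeff (N + 1 - k)) = p.coeff (N + 1 - k) := by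
      conv_rhs => rw [← hfix r]
      rw [coeff_map]
    rw [map_mul, h1, map_pow, map_neg, map_one]
  · intro t ht
    obtain ⟨k₀, hk₀⟩ := ht
    have ht : t = 2 * (k₀ - Q.eps v) + Q.eps v := by linarith
    have h1 : (aeval (sh (i : ℤ) : Module.End (RF V) (ℤ → RF V)) p) (seq Q T v)
        (k₀ - Q.eps v) = 0 := by
      rw [mem_ann.1 hk]; rfl
    rw [aeval_sh, hd, ← sum_range_reflect] at h1
    rw [← h1]
    refine sum_congr rfl fun j hj => ?_
    rw [mem_range] at hj
    have e1 : N + 1 + 1 - 1 - j = N + 1 - j := by omega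
    rw [e1, ← mul_assoc, hsq, one_mul, ht]
    unfold seq
    congr 2
    rw [Nat.cast_sub (by omega)]
    push_cast
    ring

theorem main (hT : IsT Q T) {i : ℤ} {N : ℕ} {J : ℕ → RF V} (hD : IsData Q T v i N J)
    (hmin : ∀ N' J', IsData Q T v i N' J' → N ≤ N') {k : ℕ} (hk : k ≤ N + 1)
    {s : Seed V (RF V)} (hs : Reach Set.univ (seed0 Q) s) : J k ∈ LRing s.x := by
  classical
  obtain ⟨i', hi'⟩ := hD.even
  obtain ⟨i₁, hi₁⟩ : ∃ i₁ : ℕ, i' = i₁ := ⟨i'.toNat, by have := hD.pos; omega⟩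
  subst hi₁
  have hi2 : i = 2 * (i₁ : ℤ) := by omega
  subst hi2
  have hpos : 0 < i₁ := by have := hD.pos; omega
  set P := cpoly (N + 1) J with hP
  have hPm : P.Monic := cpoly_monic hD.zero
  have hPd : P.natDegree = N + 1 := cpoly_natDegree hD.zero
  have hPk := cpoly_mem hD
  have hP0 : P.coeff 0 = (-1) ^ (N + 1) := by
    rw [hP, cpoly_coeff, if_pos (Nat.zero_le _), Nat.sub_zero, hD.last, mul_one]
  obtain ⟨m, hm⟩ := exists_isMin hPk hPm.ne_zero
  -- the coefficients of `m`
  have hU : ∀ s : Seed V (RF V), Reach Set.univ (seed0 Q) s →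
      (∀ j, m.coeff j ∈ LRing s.x) ∧ (m.coeff 0)⁻¹ ∈ LRing s.x := fun s hs =>
    laurent_fatou (reach_goodF goodF_seed0 hs).alg (frac_mem hs) hpos
      (fun n => T_mem hT hs v n) hm
  have hfix : ∀ r, m.map (theta hT r) = m := by
    intro r
    ext j
    rw [coeff_map]
    refine fixed_of_shift hm (theta hT r) r (fun n => ?_) j
    unfold seq
    rw [theta_T hT r v _ (Int.even_iff.2 (by omega))]
    congr 1
    ring
  have hm0 : m.coeff 0 = 1 ∨ m.coeff 0 = -1 :=
    common_unit goodF_seed0 hm.coeff_zero_ne ((hU _ Reach.refl).1 0) (hU _ Reach.refl).2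
      (fun k => ⟨(hU _ (Reach.refl.step (Set.mem_univ k))).1 0,
        (hU _ (Reach.refl.step (Set.mem_univ k))).2⟩)
  have hd0 : m.natDegree ≠ 0 := by
    intro h
    have h1 : m = 1 := (hm.monic.natDegree_eq_zero).1 h
    have h2 := hm.kills
    rw [mem_ann, h1, map_one, Module.End.one_apply] at h2
    have h3 := congrFun h2 0
    exact T_ne hT v _ (Int.even_iff.2 (by omega)) h3
  obtain ⟨d, hd⟩ : ∃ d, m.natDegree = d + 1 := ⟨m.natDegree - 1, by omega⟩
  have hNd : N ≤ d + 1 := by
    have hcase : m.coeff 0 = (-1) ^ (d + 1) ∨ m.coeff 0 = (-1) ^ (d + 2) := by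
      rcases Nat.even_or_odd (d + 1) with he | ho
      · have h1 : ((-1 : RF V)) ^ (d + 1) = 1 := he.neg_one_pow
        have h2 : ((-1 : RF V)) ^ (d + 2) = -1 := by rw [pow_succ, h1]; simp
        rw [h1, h2]; exact hm0
      · have h1 : ((-1 : RF V)) ^ (d + 1) = -1 := ho.neg_one_pow
        have h2 : ((-1 : RF V)) ^ (d + 2) = 1 := by rw [pow_succ, h1]; simp
        rw [h1, h2]; exact hm0.symm
    rcases hcase with h | h
    · have := hmin d _ (data_of_poly hT hpos hm.monic hd h hfix hm.kills)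
      omega
    · have hX : (X + 1 : (RF V)[X]).Monic := by
        have := monic_X_add_C (1 : RF V)
        rwa [C_1] at this
      have hXd : (X + 1 : (RF V)[X]).natDegree = 1 := by
        have := natDegree_X_add_C (1 : RF V)
        rwa [C_1] at this
      refine hmin (d + 1) _ (data_of_poly hT hpos (p := m * (X + 1)) (hm.monic.mul hX) ?_ ?_ ?_ ?_)
      · rw [hm.monic.natDegree_mul hX, hXd, hd]
      · rw [mul_coeff_zero, h]; simp
      · intro r
        rw [Polynomial.map_mul, hfix r]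
        simp
      · exact Ideal.mul_mem_right _ _ hm.kills
  -- the quotient
  obtain ⟨h, hh⟩ := hm.dvd _ hPk
  have hhm : h.Monic := hm.monic.of_mul_monic_left (by rw [← hh]; exact hPm)
  have hhd : h.natDegree ≤ 1 := by
    have h1 := congrArg natDegree hh
    rw [hm.monic.natDegree_mul hhm, ← hP, hPd, hd] at h1
    omega
  have hh0 : h.coeff 0 ∈ LRing s.x := by
    have h1 : P.coeff 0 = m.coeff 0 * h.coeff 0 := by rw [hP, hh, mul_coeff_zero]
    have h2 : h.coeff 0 = (-1) ^ (N + 1) * (m.coeff 0)⁻¹ := by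
      rw [← hP0, h1, mul_comm (m.coeff 0), mul_assoc, mul_inv_cancel₀ hm.coeff_zero_ne, mul_one]
    rw [h2]
    exact Subring.mul_mem _ (Subring.pow_mem _ (Subring.neg_mem _ (Subring.one_mem _)) _) (hU s hs).2
  have hhj : ∀ j, h.coeff j ∈ LRing s.x := by
    intro j
    rcases Nat.lt_or_ge h.natDegree j with hj | hj
    · rw [coeff_eq_zero_of_natDegree_lt hj]; exact Subring.zero_mem _
    · rcases Nat.eq_zero_or_pos j with rfl | hj0
      · exact hh0
      · have h1 : j = h.natDegree := by omega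
        rw [h1, hhm.coeff_natDegree]; exact Subring.one_mem _
  have hPj : ∀ j, P.coeff j ∈ LRing s.x := by
    intro j
    rw [hP, hh, coeff_mul]
    exact Subring.sum_mem _ fun x _ => Subring.mul_mem _ ((hU s hs).1 _) (hhj _)
  have hJ : J k = (-1) ^ k * P.coeff (N + 1 - k) := by
    rw [hP, cpoly_coeff, if_pos (by omega)]
    have e1 : N + 1 - (N + 1 - k) = k := by omega
    rw [e1, ← mul_assoc, ← mul_pow]
    simp
  rw [hJ]
  exact Subring.mul_mem _ (Subring.pow_mem _ (Subring.neg_mem _ (Subring.one_mem _)) _) (hPj _)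

end Main

end Pool.Agent.R266.TS
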