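import Mathlib
import Pool.Agent.R266.TS.B

set_option autoImplicit false
set_option linter.unusedSectionVars false

/-!
# Existence of the T-system
-/

namespace Pool.Agent.R266.TS

open Finset Pool.Agent.H489R3

variable {V : Type*} [Fintype V] [DecidableEq V]

/-- One step. -/
noncomputable def fstep (Q : BiQuiver V) (c : ℤ) (S : V → RF V) (v : V) : RF V :=
  if Q.eps v = c then exch (exB Q) S v / S v else S v

/-- The good families. -/
def GoodS (Q : BiQuiver V) (S : V → RF V) : Prop :=
  ∃ B, IsPM (Q := Q) B ∧ Reach Set.univ (seed0 Q) ⟨S, B⟩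

theorem GoodS.step {Q : BiQuiver V} {S : V → RF V} (h : GoodS Q S) (c : ℤ)
    (hc : c = 0 ∨ c = 1) : GoodS Q (fstep Q c S) := by
  obtain ⟨B, hB, hr⟩ := h
  refine ⟨fun i j => -B i j, ?_, reach_trans hr (step_colour hB c hc S)⟩
  rcases hB with rfl | rfl
  · exact Or.inr rfl
  · left
    funext i j
    exact neg_neg _

theorem fstep_fstep {Q : BiQuiver V} {S : V → RF V} (h : GoodS Q S) (c : ℤ) :
    fstep Q c (fstep Q c S) = S := by
  obtain ⟨B, hB, hr⟩ := h
  have hg := reach_goodF goodF_seed0 hr
  funext v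
  by_cases hv : Q.eps v = c
  · have h1 : exch (exB Q) (fstep Q c S) v = exch (exB Q) S v := by
      refine exch_congr (fun i => rfl) fun i hi => ?_
      unfold fstep
      rw [if_neg]
      intro hiv
      exact hi (exB_bip Q i v (by rw [hiv, hv]))
    have h2 : fstep Q c S v = exch (exB Q) S v / S v := by
      unfold fstep; rw [if_pos hv]
    have h3 : fstep Q c (fstep Q c S) v = exch (exB Q) (fstep Q c S) v / fstep Q c S v := by
      conv_lhs => unfold fstep
      rw [if_pos hv]
      rfl
    rw [h3, h1, h2]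
    have h4 : exch (exB Q) S v ≠ 0 := exch_ne_zero hg.alg v
    have h5 : S v ≠ 0 := x_ne_zero hg.alg v
    field_simp
  · unfold fstep
    rw [if_neg hv, if_neg hv]

/-- The colour of the vertices that move at time `t`. -/
def par (t : ℤ) : ℤ := t % 2

theorem par01 (t : ℤ) : par t = 0 ∨ par t = 1 := by unfold par; omega

/-- The forward states. -/
noncomputable def fpos (Q : BiQuiver V) : ℕ → V → RF V
  | 0 => var
  | n + 1 => fstep Q (par n) (fpos Q n)

/-- The backward states. -/
noncomputable def fneg (Q : BiQuiver V) : ℕ → V → RF V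
  | 0 => var
  | n + 1 => fstep Q (par (-(n + 1))) (fneg Q n)

/-- The states. -/
noncomputable def St (Q : BiQuiver V) (t : ℤ) : V → RF V :=
  if 0 ≤ t then fpos Q t.toNat else fneg Q (-t).toNat

theorem good_var (Q : BiQuiver V) : GoodS Q var := ⟨exB Q, Or.inl rfl, Reach.refl⟩

theorem good_fpos (Q : BiQuiver V) (n : ℕ) : GoodS Q (fpos Q n) := by
  induction n with
  | zero => exact good_var Q
  | succ n ih => exact ih.step _ (par01 _)

theorem good_fneg (Q : BiQuiver V) (n : ℕ) : GoodS Q (fneg Q n) := by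
  induction n with
  | zero => exact good_var Q
  | succ n ih => exact ih.step _ (par01 _)

theorem St_nat (Q : BiQuiver V) (n : ℕ) : St Q n = fpos Q n := by
  unfold St; rw [if_pos (by omega), Int.toNat_natCast]

theorem St_neg (Q : BiQuiver V) (n : ℕ) : St Q (-(n : ℤ)) = fneg Q n := by
  unfold St
  rcases Nat.eq_zero_or_pos n with rfl | hn
  · rfl
  · rw [if_neg (by omega), neg_neg, Int.toNat_natCast]

theorem good_St (Q : BiQuiver V) (t : ℤ) : GoodS Q (St Q t) := by
  unfold St
  split
  · exact good_fpos Q _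
  · exact good_fneg Q _

theorem St_step (Q : BiQuiver V) (t : ℤ) :
    St Q (t + 1) = fstep Q (par t) (St Q t) ∧ St Q t = fstep Q (par t) (St Q (t + 1)) := by
  rcases le_or_gt 0 t with h | h
  · obtain ⟨n, rfl⟩ := Int.eq_ofNat_of_zero_le h
    have h1 : St Q ((n : ℤ) + 1) = fstep Q (par n) (St Q n) := by
      have h2 : ((n : ℤ) + 1) = ((n + 1 : ℕ) : ℤ) := by push_cast; ring
      rw [h2, St_nat, St_nat]
      rfl
    refine ⟨h1, ?_⟩
    rw [h1, fstep_fstep (good_St Q _)]
  · obtain ⟨n, hn⟩ : ∃ n : ℕ, t = -((n : ℤ) + 1) := ⟨(-t - 1).toNat, by omega⟩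
    have h1 : St Q t = fstep Q (par t) (St Q (t + 1)) := by
      have h2 : t = -((n + 1 : ℕ) : ℤ) := by rw [hn]; push_cast; ring
      have h3 : t + 1 = -(n : ℤ) := by omega
      rw [h3, St_neg]
      conv_lhs => rw [h2, St_neg]
      rw [hn]
      rfl
    refine ⟨?_, h1⟩
    rw [h1, fstep_fstep (good_St Q _)]

theorem exists_T (Q : BiQuiver V) : ∃ T : V → ℤ → RF V, IsT Q T := by
  classical
  refine ⟨fun v t => St Q t v, ?_, ?_⟩
  · intro v
    change St Q (Q.eps v) v = var v
    rcases Q.eps01 v with h | h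
    · rw [h]
      exact congrFun (St_nat Q 0) v
    · rw [h]
      have h1 := St_nat Q 1
      rw [Nat.cast_one] at h1
      rw [h1]
      change fstep Q (par ((0 : ℕ) : ℤ)) (fpos Q 0) v = var v
      have h2 : Q.eps v ≠ par ((0 : ℕ) : ℤ) := by rw [h]; unfold par; simp
      unfold fstep
      rw [if_neg h2]
      rfl
  · intro v t ht
    have ht' := Int.odd_iff.1 ht
    obtain ⟨B, hB, hr⟩ := good_St Q t
    have hg := reach_goodF goodF_seed0 hr
    have h5 : St Q t v ≠ 0 := x_ne_zero hg.alg v
    have h1 : St Q (t + 1) v = St Q t v := by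
      rw [(St_step Q t).1]
      unfold fstep
      rw [if_neg]
      intro h
      unfold par at h
      omega
    have h2 : St Q (t - 1) v = exch (exB Q) (St Q t) v / St Q t v := by
      have h3 := (St_step Q (t - 1)).2
      rw [sub_add_cancel] at h3
      rw [h3]
      conv_lhs => unfold fstep
      rw [if_pos]
      have := Q.eps01 v
      unfold par
      omega
    change St Q (t + 1) v * St Q (t - 1) v = _
    rw [h1, h2, mul_div_cancel₀ _ h5, exch_exB]

end Pool.Agent.R266.TS
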